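import Pool.Agent.H660R2.NX.UnivSet

/-!
# Enumerations of bit strings, powers of two
-/

namespace Pool.Agent.H75C.NX

open Pool.Agent.NPC Pool.Agent.H660R2.NX

theorem nodup_flat (l : List (List Bool)) (hl : l.Nodup) :
    (l.flatMap (fun z => [false :: z, true :: z])).Nodup := by
  induction l with
  | nil => simp
  | cons a l ih =>
    rw [List.nodup_cons] at hl
    rw [List.flatMap_cons, List.nodup_append]
    refine ⟨by simp, ih hl.2, ?_⟩
    intro x hx y hy hxy
    subst hxy
    rw [List.mem_flatMap] at hy
    obtain ⟨z, hz, hy⟩ := hy
    simp only [List.mem_cons, List.not_mem_nil, or_false] at hx hy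
    rcases hx with rfl | rfl <;> rcases hy with h | h <;> simp at h
    · subst h; exact hl.1 hz
    · subst h; exact hl.1 hz

theorem nodup_allStr : ∀ k, (allStr k).Nodup
  | 0 => by simp [allStr]
  | k + 1 => by
    rw [allStr, List.nodup_cons]
    refine ⟨?_, nodup_flat _ (nodup_allStr k)⟩
    simp

/-- All bit strings of length `k`. -/
def strs (k : ℕ) : List (List Bool) := (allStr k).filter (fun z => decide (z.length = k))

theorem mem_strs {z : List Bool} {k : ℕ} : z ∈ strs k ↔ z.length = k := by
  unfold strs
  rw [List.mem_filter, mem_allStr]
  simp only [decide_eq_true_eq]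
  constructor
  · exact fun h => h.2
  · exact fun h => ⟨h.le, h⟩

theorem nodup_strs (k : ℕ) : (strs k).Nodup := (nodup_allStr k).filter _

theorem strs_succ (k : ℕ) : strs (k + 1) = (strs k).flatMap (fun z => [false :: z, true :: z]) := by
  have h : ∀ l : List (List Bool), (l.flatMap (fun z => [false :: z, true :: z])).filter
      (fun z => decide (z.length = k + 1)) =
      (l.filter (fun z => decide (z.length = k))).flatMap (fun z => [false :: z, true :: z]) := by
    intro l
    induction l with
    | nil => rfl
    | cons a l ih =>
      rw [List.flatMap_cons, List.filter_append, ih]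
      by_cases ha : a.length = k
      · simp [ha]
      · simp [ha]
  unfold strs
  rw [allStr, List.filter_cons_of_neg (by simp), h]

theorem length_strs : ∀ k, (strs k).length = 2 ^ k
  | 0 => by simp [strs, allStr]
  | k + 1 => by
    have h : ∀ l : List (List Bool),
        (l.flatMap (fun z => [false :: z, true :: z])).length = 2 * l.length := by
      intro l
      induction l with
      | nil => rfl
      | cons a l ih => simp only [List.flatMap_cons, List.length_append, ih, List.length_cons,
          List.length_nil]; omega
    rw [strs_succ, h, length_strs k, pow_succ, Nat.mul_comm]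

/-- All bit strings of length `k`, if the padding is long enough. -/
def strsB (k : ℕ) (pad : List Unit) : List (List Bool) :=
  (allB k pad).filter (fun z => decide (z.length = k))

theorem strsB_eq {k : ℕ} {pad : List Unit} (h : 2 ^ k ≤ pad.length) : strsB k pad = strs k := by
  unfold strsB strs
  rw [allB_eq h]

theorem poly_strsB {α : Type} [TEnc α] {k : α → ℕ} {pad : α → List Unit} (hk : UPoly k)
    (hpad : Poly pad) : Poly (fun a => strsB (k a) (pad a)) := by
  unfold strsB
  have h1 := poly_allB hk hpad
  have h2 : Poly k := hk.toPoly
  fun_prop

theorem poly_pow2 {α : Type} [TEnc α] {k : α → ℕ} (hk : UPoly k) : Poly (fun a => 2 ^ (k a)) := by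
  have h1 : Poly (fun a => (List.replicate (k a) ()).map (fun _ => false) ++ [true]) := by
    have h0 : Poly (fun a => List.replicate (k a) ()) := hk
    fun_prop
  refine (Poly.valBits h1).congr fun a => ?_
  rw [List.map_replicate, valB_append]
  have h2 : ∀ n, valB (List.replicate n false) = 0 := by
    intro n
    induction n with
    | zero => rfl
    | succ n ih => rw [List.replicate_succ]; simp [valB, ih]
  rw [h2, List.length_replicate]
  simp [valB]

theorem take_eq_filter {β : Type} (l : List β) : ∀ (n k : ℕ),
    ((l.zipIdx k).filter fun e => decide (e.2 < k + n)).map (fun e => e.1) = l.take n := by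
  induction l with
  | nil => intro n k; simp
  | cons b l ih =>
    intro n k
    rw [List.zipIdx_cons]
    cases n with
    | zero =>
      have h := ih 0 (k + 1)
      rw [List.filter_cons_of_neg (by simp), List.take_zero]
      rw [List.take_zero] at h
      rw [← h]
      congr 1
      refine List.filter_congr fun e he => ?_
      have := List.le_snd_of_mem_zipIdx he
      simp only [decide_eq_decide]
      omega
    | succ n =>
      have h := ih n (k + 1)
      rw [List.filter_cons_of_pos (by simp), List.map_cons, List.take_succ_cons, ← h]
      congr 2
      refine List.filter_congr fun e he => ?_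
      simp only [decide_eq_decide]
      omega

theorem poly_take {α β : Type} [TEnc α] [TEnc β] {l : α → List β} {n : α → ℕ} (hl : Poly l)
    (hn : Poly n) : Poly (fun a => (l a).take (n a)) := by
  have h : Poly (fun a => (((l a).zipIdx 0).filter fun e => decide (e.2 < 0 + n a)).map
      (fun e => e.1)) := by
    fun_prop
  exact h.congr fun a => take_eq_filter _ _ _

theorem length_le_two_pow_of_lt {m n : ℕ} (h : m < 2 ^ n) : m.bits.length ≤ n := by
  rw [Nat.size_eq_bits_len]
  exact Nat.size_le.2 h

/-- The bits of a number, read off from a list of distinct indices. -/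
theorem valB_zip {zs : List (List Bool)} (hz : zs.Nodup) {T : ℕ} (hT : T < 2 ^ zs.length) :
    valB (zs.map (fun z => decide ((z, true) ∈ zs.zip T.bits))) = T := by
  have hb := length_le_two_pow_of_lt hT
  have h1 : zs.map (fun z => decide ((z, true) ∈ zs.zip T.bits)) =
      T.bits ++ List.replicate (zs.length - T.bits.length) false := by
    apply List.ext_getElem
    · simp; omega
    · intro i h1 h2
      rw [List.getElem_map]
      rw [List.length_map] at h1
      by_cases hi : i < T.bits.length
      · rw [List.getElem_append_left hi]
        rw [Bool.eq_iff_iff, decide_eq_true_iff, List.mem_iff_getElem]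
        constructor
        · rintro ⟨j, hj, h⟩
          rw [List.getElem_zip, Prod.mk.injEq] at h
          rw [List.length_zip] at hj
          have := (List.Nodup.getElem_inj_iff hz).1 h.1
          subst this
          exact h.2
        · intro h
          refine ⟨i, by rw [List.length_zip]; omega, ?_⟩
          rw [List.getElem_zip, h]
      · rw [List.getElem_append_right (by omega), List.getElem_replicate, decide_eq_false_iff_not,
          List.mem_iff_getElem]
        rintro ⟨j, hj, h⟩
        rw [List.getElem_zip, Prod.mk.injEq] at h
        rw [List.length_zip] at hj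
        have := (List.Nodup.getElem_inj_iff hz).1 h.1
        subst this
        omega
  rw [h1, valB_append, valB_bits]
  have h2 : ∀ n, valB (List.replicate n false) = 0 := by
    intro n
    induction n with
    | zero => rfl
    | succ n ih => rw [List.replicate_succ]; simp [valB, ih]
  rw [h2]
  simp

end Pool.Agent.H75C.NX
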