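import Pool.Agent.H75C.NX.Census

/-!
# Machines with few facts, the language of the bits of the census, the verifier
-/

namespace Pool.Agent.H75C.NX

open Pool.Agent.NPC Pool.Agent.H660R2.NX

/-- A machine: facts about an input and an advice string are certified by `V` and recognised (in
exponential time) by `G`; the decision is computed by `D` from the list of all facts. -/
structure Mach where
  V : Ent → Bool
  G : List Bool × List Bool × List Bool × List Unit → Bool
  D : List Bool × List Bool × List (List Bool) → Bool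
  p : Polynomial ℕ
  P : Polynomial ℕ

/-- The facts about the input `x` and the advice `b`. -/
def Mach.S (M : Mach) (x b : List Bool) : Finset (List Bool) :=
  ((allStr (M.p.eval x.length)).filter
    (fun q => M.G (x, b, q, List.replicate (2 ^ M.p.eval x.length) ()))).toFinset

/-- The machine `M` decides `L` with the advice `a`, of length at most `n ^ c + c`, and with at most
`2 ^ (n ^ c + c)` facts. -/
structure Mach.Ok (M : Mach) (c : ℕ) (L : Set (List Bool)) (a : ℕ → List Bool) : Prop where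
  hV : Poly M.V
  hG : Poly M.G
  hD : Poly M.D
  inv : ∀ x b l l', (∀ q, q ∈ l ↔ q ∈ l') → M.D (x, b, l) = M.D (x, b, l')
  pad : ∀ x b q (pad : List Unit), b.length ≤ x.length ^ c + c →
    2 ^ M.p.eval x.length ≤ pad.length → M.G (x, b, q, pad) = M.G (x, b, q, List.replicate (2 ^ M.p.eval x.length) ())
  sound : ∀ x b q w, b.length ≤ x.length ^ c + c → M.V (x, b, q, w) = true → q ∈ M.S x b
  compl : ∀ x b q, b.length ≤ x.length ^ c + c → q ∈ M.S x b →
    ∃ w : List Bool, w.length ≤ M.P.eval (2 ^ (x.length ^ c + c) + x.length) ∧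
      M.V (x, b, q, w) = true
  adv : ∀ n, (a n).length ≤ n ^ c + c
  cap : ∀ x, (M.S x (a x.length)).card ≤ 2 ^ (x.length ^ c + c)
  dec : ∀ x, x ∈ L ↔ M.D (x, a x.length, (M.S x (a x.length)).toList) = true

/-- Some machine decides `L` with advice of length `n ^ c + c` and `2 ^ (n ^ c + c)` facts. -/
def Big (c : ℕ) (L : Set (List Bool)) : Prop := ∃ (M : Mach) (a : ℕ → List Bool), M.Ok c L a

/-! ### Parameters -/

/-- The length of the inputs. -/
def nn (c l : ℕ) : ℕ := l ^ (c + 3)
/-- The length of the pairs. -/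
def NN (c l : ℕ) : ℕ := 3 * nn c l + 1
/-- The length of the advice. -/
def KK (c l : ℕ) : ℕ := NN c l ^ c + c
/-- The number of inputs. -/
def ss (c l : ℕ) : ℕ := nn c l + KK c l + 2

open Polynomial in
/-- `nn` as a polynomial. -/
noncomputable def nnP (c : ℕ) : Polynomial ℕ := X ^ (c + 3)
/-- `NN` as a polynomial. -/
noncomputable def NNP (c : ℕ) : Polynomial ℕ := 3 * nnP c + 1
/-- `KK` as a polynomial. -/
noncomputable def KKP (c : ℕ) : Polynomial ℕ := NNP c ^ c + Polynomial.C c
/-- `ss` as a polynomial. -/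
noncomputable def ssP (c : ℕ) : Polynomial ℕ := nnP c + KKP c + 2

theorem nnP_eval (c l : ℕ) : (nnP c).eval l = nn c l := by simp [nnP, nn]
theorem NNP_eval (c l : ℕ) : (NNP c).eval l = NN c l := by simp [NNP, NN, nnP_eval]
theorem KKP_eval (c l : ℕ) : (KKP c).eval l = KK c l := by simp [KKP, KK, NNP_eval]
theorem ssP_eval (c l : ℕ) : (ssP c).eval l = ss c l := by simp [ssP, ss, nnP_eval, KKP_eval]

theorem upoly_of_eval {α : Type} [TEnc α] {l : α → ℕ} (hl : UPoly l) (p : Polynomial ℕ)
    {f : ℕ → ℕ} (hf : ∀ n, p.eval n = f n) : UPoly (fun a => f (l a)) := by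
  have h := UPoly.eval hl p
  simp only [hf] at h
  exact h

theorem upoly_nn {α : Type} [TEnc α] {l : α → ℕ} (hl : UPoly l) (c : ℕ) :
    UPoly (fun a => nn c (l a)) := upoly_of_eval hl (nnP c) (nnP_eval c)
theorem upoly_NN {α : Type} [TEnc α] {l : α → ℕ} (hl : UPoly l) (c : ℕ) :
    UPoly (fun a => NN c (l a)) := upoly_of_eval hl (NNP c) (NNP_eval c)
theorem upoly_KK {α : Type} [TEnc α] {l : α → ℕ} (hl : UPoly l) (c : ℕ) :
    UPoly (fun a => KK c (l a)) := upoly_of_eval hl (KKP c) (KKP_eval c)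
theorem upoly_ss {α : Type} [TEnc α] {l : α → ℕ} (hl : UPoly l) (c : ℕ) :
    UPoly (fun a => ss c (l a)) := upoly_of_eval hl (ssP c) (ssP_eval c)

/-! ### The lists -/

/-- The inputs. -/
def XL (c l : ℕ) : List (List Bool) := (strs (nn c l)).take (ss c l)
/-- Pairs of a string of length `nn` and an advice string. -/
def UB (c l : ℕ) : List (List Bool × List Bool) := (strs (nn c l)) ×ˢ (allStr (KK c l))
/-- All instances. -/
def ZZ (UBl : List (List Bool × List Bool)) (Xs : List (List Bool)) :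
    List (List Bool × List Bool) :=
  (UBl ×ˢ Xs).map (fun p => (pairBits p.1.1 p.2, p.1.2))
/-- All instances. -/
def ZL (c l : ℕ) : List (List Bool × List Bool) := ZZ (UB c l) (XL c l)
/-- The same with padding. -/
def XP (c l : ℕ) (pad : List Unit) : List (List Bool) := (strsB (nn c l) pad).take (ss c l)
/-- The same with padding. -/
def UP (c l : ℕ) (pad : List Unit) : List (List Bool × List Bool) :=
  (strsB (nn c l) pad) ×ˢ (allB (KK c l) pad)

theorem XP_eq {c l : ℕ} {pad : List Unit} (h : 2 ^ nn c l ≤ pad.length) : XP c l pad = XL c l := by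
  unfold XP XL; rw [strsB_eq h]

theorem UP_eq {c l : ℕ} {pad : List Unit} (h : 2 ^ nn c l ≤ pad.length)
    (h' : 2 ^ KK c l ≤ pad.length) : UP c l pad = UB c l := by
  unfold UP UB; rw [strsB_eq h, allB_eq h']

theorem poly_XP {α : Type} [TEnc α] {l : α → ℕ} {pad : α → List Unit} (hl : UPoly l)
    (hpad : Poly pad) (c : ℕ) : Poly (fun a => XP c (l a) (pad a)) :=
  poly_take (poly_strsB (upoly_nn hl c) hpad) (upoly_ss hl c).toPoly

theorem poly_UP {α : Type} [TEnc α] {l : α → ℕ} {pad : α → List Unit} (hl : UPoly l)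
    (hpad : Poly pad) (c : ℕ) : Poly (fun a => UP c (l a) (pad a)) :=
  R671.poly_product (poly_strsB (upoly_nn hl c) hpad) (poly_allB (upoly_KK hl c) hpad)

@[fun_prop]
theorem poly_ZZ {α : Type} [TEnc α] {U : α → List (List Bool × List Bool)}
    {Xs : α → List (List Bool)} (hU : Poly U) (hX : Poly Xs) : Poly (fun a => ZZ (U a) (Xs a)) := by
  unfold ZZ
  fun_prop

theorem pairBits_inj {u x u' x' : List Bool} (h : pairBits u x = pairBits u' x') :
    u = u' ∧ x = x' := by
  have := congrArg unpair h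
  rw [unpair_pairBits, unpair_pairBits, Prod.mk.injEq] at this
  exact this

theorem nodup_ZL (c l : ℕ) : (ZL c l).Nodup := by
  unfold ZL ZZ UB XL
  refine List.Nodup.map ?_ (((nodup_strs _).product (nodup_allStr _)).product
    ((nodup_strs _).sublist (List.take_sublist _ _)))
  rintro ⟨⟨u, b⟩, x⟩ ⟨⟨u', b'⟩, x'⟩ h
  simp only [Prod.mk.injEq] at h
  obtain ⟨h1, rfl⟩ := h
  obtain ⟨rfl, rfl⟩ := pairBits_inj h1
  rfl

theorem mem_XL {c l : ℕ} {x : List Bool} (h : x ∈ XL c l) : x.length = nn c l :=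
  mem_strs.1 (List.mem_of_mem_take h)

theorem mem_UB {c l : ℕ} {u : List Bool × List Bool} :
    u ∈ UB c l ↔ u.1.length = nn c l ∧ u.2.length ≤ KK c l := by
  unfold UB
  obtain ⟨u, b⟩ := u
  change (u, b) ∈ List.product _ _ ↔ _
  rw [List.pair_mem_product, mem_strs, mem_allStr]

theorem mem_ZL {c l : ℕ} {z : List Bool × List Bool} :
    z ∈ ZL c l ↔ ∃ u ∈ UB c l, ∃ x ∈ XL c l, z = (pairBits u.1 x, u.2) := by
  unfold ZL ZZ
  rw [List.mem_map]
  constructor
  · rintro ⟨⟨u, x⟩, h, rfl⟩
    change (u, x) ∈ List.product _ _ at h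
    rw [List.pair_mem_product] at h
    exact ⟨u, h.1, x, h.2, rfl⟩
  · rintro ⟨u, hu, x, hx, rfl⟩
    exact ⟨(u, x), List.pair_mem_product.2 ⟨hu, hx⟩, rfl⟩

theorem length_of_mem_ZL {c l : ℕ} {z : List Bool × List Bool} (h : z ∈ ZL c l) :
    z.1.length = NN c l ∧ z.2.length ≤ z.1.length ^ c + c := by
  obtain ⟨u, hu, x, hx, rfl⟩ := mem_ZL.1 h
  rw [mem_UB] at hu
  have h1 : (pairBits u.1 x).length = NN c l := by
    rw [length_pairBits, hu.1, mem_XL hx]
    unfold NN
    ring
  refine ⟨h1, ?_⟩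
  simp only [h1]
  exact hu.2

theorem length_UB (c l : ℕ) : (UB c l).length < 2 ^ (nn c l + KK c l + 1) := by
  unfold UB
  rw [List.length_product, length_strs]
  have h := length_allStr (KK c l)
  calc 2 ^ nn c l * (allStr (KK c l)).length < 2 ^ nn c l * 2 ^ (KK c l + 1) :=
        Nat.mul_lt_mul_of_pos_left (by omega) (by positivity)
    _ = 2 ^ (nn c l + KK c l + 1) := by rw [← pow_add, Nat.add_assoc]

/-! ### The language of the bits of the census -/

/-- The census for the machine `M`. -/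
def cen (M : Mach) (c l : ℕ) : ℕ := census M.S (2 ^ KK c l) (ZL c l)

/-- The bits of the census. -/
def Bset (M : Mach) (c : ℕ) : Set (List Bool) :=
  {z | (z, true) ∈ (strs z.length).zip (cen M c z.length).bits}

/-- The census computed with padding. -/
def cenD (M : Mach) (c l : ℕ) (pad : List Unit) : ℕ :=
  ((ZZ (UP c l pad) (XP c l pad)).map (fun z => min (((allB (M.p.eval (NN c l)) pad).filter
    (fun q => M.G (z.1, z.2, q, pad))).length) (2 ^ KK c l + 1))).sum

theorem cenD_eq {M : Mach} {c l : ℕ} {pad : List Unit}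
    (hpad : ∀ x b q (pad : List Unit), b.length ≤ x.length ^ c + c →
      2 ^ M.p.eval x.length ≤ pad.length →
      M.G (x, b, q, pad) = M.G (x, b, q, List.replicate (2 ^ M.p.eval x.length) ()))
    (h1 : 2 ^ nn c l ≤ pad.length) (h2 : 2 ^ KK c l ≤ pad.length)
    (h3 : 2 ^ M.p.eval (NN c l) ≤ pad.length) : cenD M c l pad = cen M c l := by
  unfold cenD cen census
  rw [UP_eq h1 h2, XP_eq h1, allB_eq h3]
  congr 1
  refine List.map_congr_left fun z hz => ?_
  have hz' := (length_of_mem_ZL hz).1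
  have hz'' := (length_of_mem_ZL hz).2
  congr 1
  unfold Mach.S
  rw [List.toFinset_card_of_nodup ((nodup_allStr _).filter _), hz']
  congr 1
  refine List.filter_congr fun q _ => ?_
  have := hpad z.1 z.2 q pad hz'' (by rw [hz']; exact h3)
  rw [hz'] at this
  exact this

theorem poly_cenD {α : Type} [TEnc α] {M : Mach} (hG : Poly M.G) {l : α → ℕ}
    {pad : α → List Unit} (hl : UPoly l) (hpad : Poly pad) (c : ℕ) :
    Poly (fun a => cenD M c (l a) (pad a)) := by
  have h1 := poly_XP hl hpad c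
  have h2 := poly_UP hl hpad c
  have h3 : Poly (fun a => allB (M.p.eval (NN c (l a))) (pad a)) :=
    poly_allB (UPoly.eval (upoly_NN hl c) M.p) hpad
  have h4 : Poly (fun a => 2 ^ KK c (l a)) := poly_pow2 (upoly_KK hl c)
  unfold cenD
  have h5 : Poly (fun q : (α × (List Bool × List Bool)) × List Bool =>
      M.G (q.1.2.1, q.1.2.2, q.2, pad q.1.1)) := by
    refine hG.comp (f := fun q : (α × (List Bool × List Bool)) × List Bool =>
      (q.1.2.1, q.1.2.2, q.2, pad q.1.1)) ?_
    fun_prop
  have h6 : Poly (fun q : α × (List Bool × List Bool) =>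
      (allB (M.p.eval (NN c (l q.1))) (pad q.1)).filter
        (fun r => M.G (q.2.1, q.2.2, r, pad q.1))) :=
    Poly.filter (h3.comp (Poly.fst Poly.id)) h5
  have h7 : Poly (fun q : α × (List Bool × List Bool) =>
      min (((allB (M.p.eval (NN c (l q.1))) (pad q.1)).filter
        (fun r => M.G (q.2.1, q.2.2, r, pad q.1))).length) (2 ^ KK c (l q.1) + 1)) :=
    Poly.min (Poly.length h6) (Poly.add (h4.comp (Poly.fst Poly.id)) (NPC.Poly.const 1))
  exact NPC.Poly.sum (NPC.Poly.map (poly_ZZ h2 h1) h7)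

end Pool.Agent.H75C.NX
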