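import Pool.Agent.H75C.NX.Sem

/-!
# Polynomial bounds in `2 ^ (N ^ (c + 1))`
-/

namespace Pool.Agent.H75C.NX

open Pool.Agent.NPC Pool.Agent.H660R2.NX

/-- The scale. -/
def LL (c l : ℕ) : ℕ := 2 ^ (NN c l ^ (c + 1))

/-- Bounded by a power of the scale. -/
def PB (c : ℕ) (f : ℕ → ℕ) : Prop := ∃ k, ∀ l, 1 ≤ l → f l ≤ LL c l ^ k

theorem one_le_nn {c l : ℕ} (h : 1 ≤ l) : 1 ≤ nn c l := Nat.one_le_pow _ _ h

theorem le_nn {c l : ℕ} (h : 1 ≤ l) : l ≤ nn c l := by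
  unfold nn
  calc l = l ^ 1 := (pow_one l).symm
    _ ≤ l ^ (c + 3) := Nat.pow_le_pow_right h (by omega)

theorem four_le_NN {c l : ℕ} (h : 1 ≤ l) : 4 ≤ NN c l := by
  have := one_le_nn (c := c) h
  unfold NN
  omega

theorem NN_le_pow {c l : ℕ} : NN c l ≤ NN c l ^ (c + 1) := by
  calc NN c l = NN c l ^ 1 := (pow_one _).symm
    _ ≤ NN c l ^ (c + 1) := Nat.pow_le_pow_right (by unfold NN; omega) (by omega)

theorem KK_le_pow {c l : ℕ} (h : 1 ≤ l) : KK c l ≤ NN c l ^ (c + 1) := by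
  have h4 := four_le_NN (c := c) h
  have h1 : c ≤ NN c l ^ c := by
    have h2 : c < 2 ^ c := Nat.lt_two_pow_self
    have h3 : 2 ^ c ≤ NN c l ^ c := Nat.pow_le_pow_left (by omega) c
    omega
  unfold KK
  rw [pow_succ]
  nlinarith

theorem two_le_LL (c l : ℕ) : 2 ≤ LL c l := by
  unfold LL
  calc 2 = 2 ^ 1 := rfl
    _ ≤ 2 ^ (NN c l ^ (c + 1)) := Nat.pow_le_pow_right (by norm_num)
        (Nat.one_le_pow _ _ (by unfold NN; omega))

theorem PB.mono {c : ℕ} {f g : ℕ → ℕ} (hg : PB c g) (h : ∀ l, 1 ≤ l → f l ≤ g l) : PB c f := by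
  obtain ⟨k, hk⟩ := hg
  exact ⟨k, fun l hl => (h l hl).trans (hk l hl)⟩

theorem PB.const (c n : ℕ) : PB c (fun _ => n) := by
  refine ⟨n, fun l _ => ?_⟩
  have h1 : n < 2 ^ n := Nat.lt_two_pow_self
  exact h1.le.trans (Nat.pow_le_pow_left (two_le_LL c l) n)

theorem PB.mul {c : ℕ} {f g : ℕ → ℕ} (hf : PB c f) (hg : PB c g) : PB c (fun l => f l * g l) := by
  obtain ⟨k, hk⟩ := hf
  obtain ⟨m, hm⟩ := hg
  refine ⟨k + m, fun l hl => ?_⟩
  rw [pow_add]
  exact Nat.mul_le_mul (hk l hl) (hm l hl)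

theorem PB.add {c : ℕ} {f g : ℕ → ℕ} (hf : PB c f) (hg : PB c g) : PB c (fun l => f l + g l) := by
  obtain ⟨k, hk⟩ := hf
  obtain ⟨m, hm⟩ := hg
  refine ⟨k + m + 1, fun l hl => ?_⟩
  have h1 := hk l hl
  have h2 := hm l hl
  have h3 := two_le_LL c l
  have h4 : LL c l ^ k ≤ LL c l ^ (k + m) := Nat.pow_le_pow_right (by omega) (by omega)
  have h5 : LL c l ^ m ≤ LL c l ^ (k + m) := Nat.pow_le_pow_right (by omega) (by omega)
  rw [pow_succ]
  nlinarith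

theorem PB.poly {c : ℕ} {f : ℕ → ℕ} (hf : PB c f) (p : Polynomial ℕ) :
    PB c (fun l => p.eval (f l)) := by
  induction p using Polynomial.induction_on' with
  | add p q hp hq =>
    simp only [Polynomial.eval_add]
    exact hp.add hq
  | monomial n a =>
    simp only [Polynomial.eval_monomial]
    refine (PB.const c a).mul ?_
    obtain ⟨k, hk⟩ := hf
    refine ⟨k * n, fun l hl => ?_⟩
    rw [pow_mul]
    exact Nat.pow_le_pow_left (hk l hl) n

theorem PB.pow2 {c : ℕ} {f : ℕ → ℕ} (m : ℕ) (h : ∀ l, 1 ≤ l → f l ≤ m * NN c l ^ (c + 1)) :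
    PB c (fun l => 2 ^ f l) := by
  refine ⟨m, fun l hl => ?_⟩
  unfold LL
  rw [← pow_mul, Nat.mul_comm]
  exact Nat.pow_le_pow_right (by norm_num) (h l hl)

theorem PB.of_pow2 {c : ℕ} {f : ℕ → ℕ} (h : PB c (fun l => 2 ^ f l)) : PB c f :=
  h.mono (fun _ _ => Nat.lt_two_pow_self.le)

theorem pb_NN2 (c : ℕ) : PB c (fun l => 2 ^ NN c l) :=
  PB.pow2 1 (fun l _ => by rw [one_mul]; exact NN_le_pow)
theorem pb_NN (c : ℕ) : PB c (fun l => NN c l) := (pb_NN2 c).of_pow2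
theorem pb_nn2 (c : ℕ) : PB c (fun l => 2 ^ nn c l) :=
  PB.pow2 1 (fun l _ => by rw [one_mul]; exact le_trans (by unfold NN; omega) NN_le_pow)
theorem pb_nn (c : ℕ) : PB c (fun l => nn c l) := (pb_nn2 c).of_pow2
theorem pb_l2 (c : ℕ) : PB c (fun l => 2 ^ l) :=
  (pb_nn2 c).mono (fun l hl => Nat.pow_le_pow_right (by norm_num) (le_nn hl))
theorem pb_l (c : ℕ) : PB c (fun l => l) := (pb_l2 c).of_pow2
theorem pb_KK2 (c : ℕ) : PB c (fun l => 2 ^ KK c l) :=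
  PB.pow2 1 (fun l hl => by rw [one_mul]; exact KK_le_pow hl)
theorem pb_KK (c : ℕ) : PB c (fun l => KK c l) := (pb_KK2 c).of_pow2
theorem ss_le (c l : ℕ) (h : 1 ≤ l) : ss c l ≤ 2 * NN c l ^ (c + 1) := by
  have h1 := KK_le_pow (c := c) h
  have h2 := NN_le_pow (c := c) (l := l)
  have h3 : nn c l + 2 ≤ NN c l := by
    have := one_le_nn (c := c) h
    unfold NN
    omega
  unfold ss
  omega
theorem pb_ss2 (c : ℕ) : PB c (fun l => 2 ^ ss c l) := PB.pow2 2 (ss_le c)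
theorem pb_ss (c : ℕ) : PB c (fun l => ss c l) := (pb_ss2 c).of_pow2
theorem lc_le (c l : ℕ) (h : 1 ≤ l) : l ^ c + c ≤ KK c l := by
  unfold KK
  have : l ^ c ≤ NN c l ^ c := Nat.pow_le_pow_left (le_trans (le_nn (c := c) h) (by unfold NN; omega)) c
  omega
theorem pb_lc2 (c : ℕ) : PB c (fun l => 2 ^ (l ^ c + c)) :=
  (pb_KK2 c).mono (fun l hl => Nat.pow_le_pow_right (by norm_num) (lc_le c l hl))
theorem pb_lc (c : ℕ) : PB c (fun l => l ^ c + c) := (pb_lc2 c).of_pow2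

theorem length_ZL_le (c l : ℕ) : (ZL c l).length ≤ 2 ^ (nn c l + KK c l + 1) * ss c l := by
  unfold ZL ZZ
  rw [List.length_map, List.length_product]
  refine Nat.mul_le_mul (length_UB c l).le ?_
  unfold XL
  rw [List.length_take]
  exact min_le_left _ _

theorem pb_cen (M : Mach) (c : ℕ) : PB c (fun l => cen M c l) := by
  refine PB.mono (g := fun l => 2 ^ nn c l * 2 ^ KK c l * 2 * ss c l * (2 ^ KK c l + 1)) ?_ ?_
  · exact ((((pb_nn2 c).mul (pb_KK2 c)).mul (PB.const c 2)).mul (pb_ss c)).mul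
      ((pb_KK2 c).add (PB.const c 1))
  · intro l _
    unfold cen
    refine (census_le _ _ _).trans (Nat.mul_le_mul_right _ ?_)
    refine (length_ZL_le c l).trans (Nat.mul_le_mul_right _ ?_)
    rw [pow_add, pow_add, pow_one]

theorem tau_le (M : Mach) (c : ℕ) (a : ℕ → List Bool) (l : ℕ) :
    tau M c a l ≤ 2 ^ l * (2 ^ (l ^ c + c) + 1) := by
  unfold tau
  refine (census_le _ _ _).trans (Nat.mul_le_mul_right _ ?_)
  unfold Z1
  rw [List.length_map, length_strs]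

theorem pb_tau (M : Mach) (c : ℕ) (a : ℕ → List Bool) : PB c (fun l => tau M c a l) :=
  PB.mono ((pb_l2 c).mul ((pb_lc2 c).add (PB.const c 1))) (fun l _ => tau_le M c a l)

theorem sz_str_le {x : List Bool} {n : ℕ} (h : x.length ≤ n) : sz x ≤ 4 * n + 1 := by
  have := sz_listBool_le x
  omega

theorem sz_ent_le {e : Ent} {n1 n2 n3 n4 : ℕ} (h1 : e.1.length ≤ n1) (h2 : e.2.1.length ≤ n2)
    (h3 : e.2.2.1.length ≤ n3) (h4 : e.2.2.2.length ≤ n4) :
    sz e ≤ 4 * n1 + 4 * n2 + 4 * n3 + 4 * n4 + 10 := by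
  obtain ⟨y, b, q, w⟩ := e
  have a1 := sz_str_le h1
  have a2 := sz_str_le h2
  have a3 := sz_str_le h3
  have a4 := sz_str_le h4
  simp only [sz_pair]
  simp only at a1 a2 a3 a4
  omega

theorem length_of_mem_S {M : Mach} {x b q : List Bool} (h : q ∈ M.S x b) :
    q.length ≤ M.p.eval x.length := by
  unfold Mach.S at h
  rw [List.mem_toFinset, List.mem_filter, mem_allStr] at h
  exact h.1

/-- A bound for the size of the first list. -/
noncomputable def bd1 (M1 : Mach) (c : ℕ) (a1 : ℕ → List Bool) (l : ℕ) : ℕ :=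
  tau M1 c a1 l * (4 * l + 4 * (l ^ c + c) + 4 * M1.p.eval l +
    4 * M1.P.eval (2 ^ (l ^ c + c) + l) + 11) + 1

/-- A bound for the size of the second list. -/
noncomputable def bd2 (M : Mach) (c : ℕ) (l : ℕ) : ℕ :=
  cen M c l * (4 * NN c l + 4 * KK c l + 4 * M.p.eval (NN c l) +
    4 * M.P.eval (2 ^ KK c l + NN c l) + 11) + 1

theorem pb_bd1 (M1 : Mach) (c : ℕ) (a1 : ℕ → List Bool) : PB c (bd1 M1 c a1) := by
  unfold bd1
  refine PB.add (PB.mul (pb_tau M1 c a1) ?_) (PB.const c 1)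
  refine PB.add (PB.add (PB.add (PB.add ?_ ?_) ?_) ?_) (PB.const c 11)
  · exact PB.mul (PB.const c 4) (pb_l c)
  · exact PB.mul (PB.const c 4) (pb_lc c)
  · exact PB.mul (PB.const c 4) ((pb_l c).poly _)
  · exact PB.mul (PB.const c 4) (((pb_lc2 c).add (pb_l c)).poly _)

theorem pb_bd2 (M : Mach) (c : ℕ) : PB c (bd2 M c) := by
  unfold bd2
  refine PB.add (PB.mul (pb_cen M c) ?_) (PB.const c 1)
  refine PB.add (PB.add (PB.add (PB.add ?_ ?_) ?_) ?_) (PB.const c 11)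
  · exact PB.mul (PB.const c 4) (pb_NN c)
  · exact PB.mul (PB.const c 4) (pb_KK c)
  · exact PB.mul (PB.const c 4) ((pb_NN c).poly _)
  · exact PB.mul (PB.const c 4) (((pb_KK2 c).add (pb_NN c)).poly _)

theorem sz_E1_le {M1 : Mach} {c l : ℕ} {a1 : ℕ → List Bool} (ha : (a1 l).length ≤ l ^ c + c)
    {E : List Ent}
    (h : ∀ e ∈ E, (e.1, e.2.1) ∈ Z1 (a1 l) l ∧ e.2.2.1 ∈ M1.S e.1 e.2.1 ∧
        e.2.2.2.length ≤ M1.P.eval (2 ^ (l ^ c + c) + l)) (hE : E.length = tau M1 c a1 l) :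
    sz E ≤ bd1 M1 c a1 l := by
  unfold bd1
  rw [← hE]
  refine (sz_le_length_mul E (4 * l + 4 * (l ^ c + c) + 4 * M1.p.eval l +
    4 * M1.P.eval (2 ^ (l ^ c + c) + l) + 10) ?_).trans ?_
  · intro e he
    obtain ⟨h1, h2, h3⟩ := h e he
    rw [mem_Z1] at h1
    simp only at h1
    have h4 := length_of_mem_S h2
    rw [h1.1] at h4
    exact sz_ent_le h1.1.le (by rw [h1.2]; exact ha) h4 h3
  · exact le_of_eq (by ring)

theorem sz_E2_le {M : Mach} {c l : ℕ} {E : List Ent}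
    (h : ∀ e ∈ E, (e.1, e.2.1) ∈ ZL c l ∧ e.2.2.1 ∈ M.S e.1 e.2.1 ∧
        e.2.2.2.length ≤ M.P.eval (2 ^ KK c l + NN c l)) (hE : E.length = cen M c l) :
    sz E ≤ bd2 M c l := by
  unfold bd2
  rw [← hE]
  refine (sz_le_length_mul E (4 * NN c l + 4 * KK c l + 4 * M.p.eval (NN c l) +
    4 * M.P.eval (2 ^ KK c l + NN c l) + 10) ?_).trans ?_
  · intro e he
    obtain ⟨h1, h2, h3⟩ := h e he
    obtain ⟨h5, h6⟩ := length_of_mem_ZL h1
    simp only at h5 h6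
    have h4 := length_of_mem_S h2
    rw [h5] at h4 h6
    exact sz_ent_le h5.le h6 h4 h3
  · exact le_of_eq (by ring)

end Pool.Agent.H75C.NX
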