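import Pool.Agent.H75C.NX.Enum

/-!
# The census: lists of certified facts of prescribed total length are complete
-/

namespace Pool.Agent.H75C.NX

open Pool.Agent.NPC Pool.Agent.H660R2.NX

/-- An entry `(y, b, q, w)`: the certificate `w` for the fact `q` about the input `y` and the advice
`b`. -/
abbrev Ent := List Bool × List Bool × List Bool × List Bool

/-- The entry without its certificate. -/
def key (e : Ent) : List Bool × List Bool × List Bool := (e.1, e.2.1, e.2.2.1)

/-- The entries for the input `z.1` and the advice `z.2`. -/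
def sub (E : List Ent) (z : List Bool × List Bool) : List Ent :=
  E.filter (fun e => decide ((e.1, e.2.1) = z))

/-- The facts listed for the input `z.1` and the advice `z.2`. -/
def facts (E : List Ent) (z : List Bool × List Bool) : List (List Bool) :=
  (sub E z).map (fun e => e.2.2.1)

/-- The test of a list of entries: all certificates are accepted, all entries concern members of `Z`,
the keys are distinct, at most `cap + 1` entries for each member of `Z`, and `T` entries
altogether. -/
def chk (V : Ent → Bool) (Z : List (List Bool × List Bool)) (cap T : ℕ) (E : List Ent) : Bool :=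
  E.all (fun e => V e && decide ((e.1, e.2.1) ∈ Z) &&
    decide ((E.filter (fun e' => decide (key e' = key e))).length = 1)) &&
  Z.all (fun z => decide ((sub E z).length ≤ cap + 1)) && decide (E.length = T)

theorem count_key (E : List Ent) (k : List Bool × List Bool × List Bool) :
    (E.map key).count k = (E.filter (fun e' => decide (key e' = k))).length := by
  rw [List.count, List.countP_map, List.countP_eq_length_filter]
  congr 1
  apply List.filter_congr
  intro e _
  simp only [Function.comp_apply, beq_eq_decide]

theorem sum_sub (E : List Ent) (Z : List (List Bool × List Bool)) (hZ : Z.Nodup)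
    (hE : ∀ e ∈ E, (e.1, e.2.1) ∈ Z) : (Z.map (fun z => (sub E z).length)).sum = E.length := by
  induction E with
  | nil =>
    simp [sub]
  | cons e E ih =>
    have ih' := ih (fun e' he' => hE e' (List.mem_cons_of_mem _ he'))
    have h1 : ∀ z, (sub (e :: E) z).length =
        (if (e.1, e.2.1) = z then 1 else 0) + (sub E z).length := by
      intro z
      unfold sub
      rw [List.filter_cons]
      by_cases h : (e.1, e.2.1) = z
      · simp [h]; omega
      · simp [h]
    have h2 : (Z.map (fun z => (sub (e :: E) z).length)).sum =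
        (Z.map (fun z => if (e.1, e.2.1) = z then 1 else 0)).sum +
          (Z.map (fun z => (sub E z).length)).sum := by
      rw [← List.sum_map_add]
      congr 1
      exact List.map_congr_left (fun z _ => h1 z)
    have h3 : (Z.map (fun z => if (e.1, e.2.1) = z then 1 else 0)).sum = 1 := by
      have h4 := hE e (List.mem_cons_self)
      clear ih ih' hE h2 h1
      induction Z with
      | nil => simp at h4
      | cons z Z ihZ =>
        rw [List.nodup_cons] at hZ
        rw [List.map_cons, List.sum_cons]
        rw [List.mem_cons] at h4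
        by_cases h5 : (e.1, e.2.1) = z
        · rw [if_pos h5]
          have h6 : (Z.map (fun z => if (e.1, e.2.1) = z then 1 else 0)).sum = 0 := by
            apply List.sum_eq_zero
            intro x hx
            rw [List.mem_map] at hx
            obtain ⟨z', hz', rfl⟩ := hx
            rw [if_neg]
            rintro h7
            rw [h5] at h7
            subst h7
            exact hZ.1 hz'
          rw [h6]
        · rw [if_neg h5, zero_add]
          exact ihZ hZ.2 (h4.resolve_left h5)
    rw [h2, h3, ih', List.length_cons]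
    omega

theorem sum_le_eq {α : Type} (Z : List α) (f g : α → ℕ) (h : ∀ z ∈ Z, f z ≤ g z)
    (hs : (Z.map f).sum = (Z.map g).sum) : ∀ z ∈ Z, f z = g z := by
  induction Z with
  | nil => simp
  | cons a Z ih =>
    simp only [List.map_cons, List.sum_cons] at hs
    have h1 := h a (List.mem_cons_self)
    have h2 : (Z.map f).sum ≤ (Z.map g).sum :=
      List.sum_le_sum (fun z hz => h z (List.mem_cons_of_mem _ hz))
    intro z hz
    rw [List.mem_cons] at hz
    rcases hz with rfl | hz
    · omega
    · exact ih (fun z hz => h z (List.mem_cons_of_mem _ hz)) (by omega) z hz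

variable {V : Ent → Bool} {Z : List (List Bool × List Bool)} {cap T : ℕ} {E : List Ent}
  {S : List Bool → List Bool → Finset (List Bool)}

/-- The truncated census. -/
def census (S : List Bool → List Bool → Finset (List Bool)) (cap : ℕ)
    (Z : List (List Bool × List Bool)) : ℕ :=
  (Z.map (fun z => min (S z.1 z.2).card (cap + 1))).sum

theorem mem_sub {e : Ent} {z : List Bool × List Bool} :
    e ∈ sub E z ↔ e ∈ E ∧ (e.1, e.2.1) = z := by
  unfold sub
  rw [List.mem_filter, decide_eq_true_eq]

theorem mem_facts {q : List Bool} {z : List Bool × List Bool} :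
    q ∈ facts E z ↔ ∃ w, (z.1, z.2, q, w) ∈ E := by
  unfold facts
  rw [List.mem_map]
  constructor
  · rintro ⟨⟨y, b, q', w⟩, he, rfl⟩
    rw [mem_sub] at he
    obtain ⟨he, rfl⟩ := he
    exact ⟨w, he⟩
  · rintro ⟨w, hw⟩
    exact ⟨_, mem_sub.2 ⟨hw, rfl⟩, rfl⟩

theorem nodup_facts (h : (E.map key).Nodup) (z : List Bool × List Bool) : (facts E z).Nodup := by
  have h1 : ((sub E z).map key).Nodup := List.Nodup.sublist (List.Sublist.map _ List.filter_sublist) h
  have h2 : (sub E z).map key = (facts E z).map (fun q => (z.1, z.2, q)) := by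
    unfold facts
    rw [List.map_map]
    apply List.map_congr_left
    intro e he
    rw [mem_sub] at he
    obtain ⟨_, rfl⟩ := he
    rfl
  rw [h2] at h1
  exact List.Nodup.of_map _ h1

theorem chk_sound (hZ : Z.Nodup)
    (hV : ∀ e : Ent, V e = true → (e.1, e.2.1) ∈ Z → e.2.2.1 ∈ S e.1 e.2.1)
    (hT : T = census S cap Z) (h : chk V Z cap T E = true) :
    ∀ z ∈ Z, (facts E z).length = min (S z.1 z.2).card (cap + 1) ∧
      ((S z.1 z.2).card ≤ cap → ∀ q, q ∈ facts E z ↔ q ∈ S z.1 z.2) := by
  unfold chk at h
  rw [Bool.and_eq_true, Bool.and_eq_true, List.all_eq_true, List.all_eq_true,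
    decide_eq_true_eq] at h
  obtain ⟨⟨h1, h2⟩, h3⟩ := h
  simp only [Bool.and_eq_true, decide_eq_true_eq] at h1 h2
  have hnd : (E.map key).Nodup := by
    rw [List.nodup_iff_count_le_one]
    intro k
    by_cases hk : k ∈ E.map key
    · rw [List.mem_map] at hk
      obtain ⟨e, he, rfl⟩ := hk
      rw [count_key, (h1 e he).2]
    · rw [List.count_eq_zero_of_not_mem hk]
      omega
  have hsub : ∀ z ∈ Z, (facts E z).toFinset ⊆ S z.1 z.2 := by
    intro z hz q hq
    rw [List.mem_toFinset, mem_facts] at hq
    obtain ⟨w, hw⟩ := hq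
    have := hV _ (h1 _ hw).1.1 hz
    exact this
  have hcard : ∀ z ∈ Z, (facts E z).length ≤ (S z.1 z.2).card := by
    intro z hz
    rw [← List.toFinset_card_of_nodup (nodup_facts hnd z)]
    exact Finset.card_le_card (hsub z hz)
  have hlen : ∀ z, (facts E z).length = (sub E z).length := by
    intro z; unfold facts; rw [List.length_map]
  have hle : ∀ z ∈ Z, (facts E z).length ≤ min (S z.1 z.2).card (cap + 1) := by
    intro z hz
    refine le_min (hcard z hz) ?_
    rw [hlen]
    exact h2 z hz
  have hsum : (Z.map (fun z => (facts E z).length)).sum =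
      (Z.map (fun z => min (S z.1 z.2).card (cap + 1))).sum := by
    have h4 := sum_sub E Z hZ (fun e he => (h1 e he).1.2)
    have h5 : (Z.map (fun z => (facts E z).length)).sum = (Z.map (fun z => (sub E z).length)).sum := by
      congr 1
      exact List.map_congr_left (fun z _ => hlen z)
    rw [h5, h4, h3, hT]
    rfl
  have heq := sum_le_eq Z _ _ hle hsum
  intro z hz
  refine ⟨heq z hz, fun hc => ?_⟩
  have h6 : (facts E z).toFinset = S z.1 z.2 := by
    apply Finset.eq_of_subset_of_card_le (hsub z hz)
    rw [List.toFinset_card_of_nodup (nodup_facts hnd z), heq z hz]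
    exact le_min le_rfl (by omega)
  intro q
  rw [← h6, List.mem_toFinset]

theorem chk_complete (hZ : Z.Nodup) (Bw : ℕ)
    (hV : ∀ z ∈ Z, ∀ q ∈ S z.1 z.2, ∃ w : List Bool, w.length ≤ Bw ∧ V (z.1, z.2, q, w) = true)
    (hT : T = census S cap Z) :
    ∃ E : List Ent, chk V Z cap T E = true ∧
      (∀ e ∈ E, (e.1, e.2.1) ∈ Z ∧ e.2.2.1 ∈ S e.1 e.2.1 ∧ e.2.2.2.length ≤ Bw) ∧
      E.length = T := by
  classical
  choose! wit hw1 hw2 using hV
  set blk : List Bool × List Bool → List Ent := fun z =>
    ((S z.1 z.2).toList.take (cap + 1)).map (fun q => (z.1, z.2, q, wit z q)) with hblk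
  have hblk_mem : ∀ z e, e ∈ blk z → (e.1, e.2.1) = z ∧ e.2.2.1 ∈ S z.1 z.2 ∧
      e.2.2.2 = wit z e.2.2.1 := by
    intro z e he
    rw [hblk, List.mem_map] at he
    obtain ⟨q, hq, rfl⟩ := he
    exact ⟨rfl, Finset.mem_toList.1 (List.mem_of_mem_take hq), rfl⟩
  have hlen : ∀ z, (blk z).length = min (S z.1 z.2).card (cap + 1) := by
    intro z
    rw [hblk]
    simp only [List.length_map, List.length_take, Finset.length_toList]
    exact min_comm _ _
  have hmem : ∀ e ∈ Z.flatMap blk, (e.1, e.2.1) ∈ Z ∧ e.2.2.1 ∈ S e.1 e.2.1 ∧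
      e.2.2.2 = wit (e.1, e.2.1) e.2.2.1 := by
    intro e he
    rw [List.mem_flatMap] at he
    obtain ⟨z, hz, he⟩ := he
    obtain ⟨h1, h2, h3⟩ := hblk_mem z e he
    subst h1
    exact ⟨hz, h2, h3⟩
  have hL : (Z.flatMap blk).length = T := by
    rw [List.length_flatMap, hT]
    unfold census
    congr 1
    exact List.map_congr_left (fun z _ => hlen z)
  have hnd : ((Z.flatMap blk).map key).Nodup := by
    rw [List.map_flatMap, List.nodup_flatMap]
    constructor
    · intro z _
      rw [hblk, List.map_map]
      have h1 : ((S z.1 z.2).toList.take (cap + 1)).Nodup :=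
        List.Nodup.sublist (List.take_sublist _ _) (Finset.nodup_toList _)
      refine h1.map ?_
      intro q q' h
      simpa [key] using h
    · refine hZ.imp ?_
      intro z z' hne
      rw [Function.onFun, List.disjoint_iff_ne]
      rintro k hk k' hk' rfl
      rw [List.mem_map] at hk hk'
      obtain ⟨e, he, hek⟩ := hk
      obtain ⟨e', he', hek'⟩ := hk'
      apply hne
      rw [← (hblk_mem z e he).1, ← (hblk_mem z' e' he').1]
      rw [← hek'] at hek
      unfold key at hek
      rw [Prod.mk.injEq, Prod.mk.injEq] at hek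
      rw [hek.1, hek.2.1]
  have hcount : ∀ e ∈ Z.flatMap blk, ((Z.flatMap blk).filter (fun e' => decide (key e' = key e))).length
      = 1 := by
    intro e he
    rw [← count_key]
    exact List.count_eq_one_of_mem hnd (List.mem_map.2 ⟨e, he, rfl⟩)
  have hsubl : ∀ z ∈ Z, (sub (Z.flatMap blk) z).length ≤ cap + 1 := by
    intro z hz
    have h1 : (facts (Z.flatMap blk) z).Nodup := nodup_facts hnd z
    have h2 : (facts (Z.flatMap blk) z).toFinset ⊆ ((S z.1 z.2).toList.take (cap + 1)).toFinset := by
      intro q hq
      rw [List.mem_toFinset, mem_facts] at hq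
      obtain ⟨w, hw⟩ := hq
      rw [List.mem_flatMap] at hw
      obtain ⟨z', hz', hw⟩ := hw
      obtain ⟨h3, _, _⟩ := hblk_mem _ _ hw
      simp only at h3
      subst h3
      rw [hblk, List.mem_map] at hw
      obtain ⟨q', hq', h4⟩ := hw
      simp only [Prod.mk.injEq] at h4
      rw [List.mem_toFinset]
      obtain ⟨_, _, rfl, _⟩ := h4
      exact hq'
    have h3 : (sub (Z.flatMap blk) z).length = (facts (Z.flatMap blk) z).length := by
      unfold facts; rw [List.length_map]
    rw [h3, ← List.toFinset_card_of_nodup h1]
    refine (Finset.card_le_card h2).trans ((List.toFinset_card_le _).trans ?_)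
    rw [List.length_take]
    exact min_le_left _ _
  refine ⟨Z.flatMap blk, ?_, ?_, hL⟩
  · unfold chk
    rw [Bool.and_eq_true, Bool.and_eq_true, List.all_eq_true, List.all_eq_true,
      decide_eq_true_eq]
    refine ⟨⟨?_, ?_⟩, hL⟩
    · intro e he
      obtain ⟨h1, h2, h3⟩ := hmem e he
      rw [Bool.and_eq_true, Bool.and_eq_true, decide_eq_true_eq, decide_eq_true_eq]
      refine ⟨⟨?_, h1⟩, hcount e he⟩
      have h4 := hw2 (e.1, e.2.1) h1 e.2.2.1 h2
      obtain ⟨y, b, q, w⟩ := e
      simp only at h3 h4 ⊢
      rw [h3]
      exact h4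
    · intro z hz
      rw [decide_eq_true_eq]
      exact hsubl z hz
  · intro e he
    obtain ⟨h1, h2, h3⟩ := hmem e he
    refine ⟨h1, h2, ?_⟩
    rw [h3]
    exact hw1 (e.1, e.2.1) h1 e.2.2.1 h2

theorem census_le (S : List Bool → List Bool → Finset (List Bool)) (cap : ℕ)
    (Z : List (List Bool × List Bool)) : census S cap Z ≤ Z.length * (cap + 1) := by
  unfold census
  refine (List.sum_le_card_nsmul _ (cap + 1) ?_).trans ?_
  · intro x hx
    rw [List.mem_map] at hx
    obtain ⟨z, _, rfl⟩ := hx
    exact min_le_right _ _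
  · rw [List.length_map, smul_eq_mul]

attribute [local fun_prop] poly_strsB poly_pow2

theorem poly_key : Poly key := by
  unfold key
  fun_prop

@[fun_prop]
theorem poly_sub {α : Type} [TEnc α] {E : α → List Ent} {z : α → List Bool × List Bool}
    (hE : Poly E) (hz : Poly z) : Poly (fun a => sub (E a) (z a)) := by
  unfold sub
  fun_prop

@[fun_prop]
theorem poly_facts {α : Type} [TEnc α] {E : α → List Ent} {z : α → List Bool × List Bool}
    (hE : Poly E) (hz : Poly z) : Poly (fun a => facts (E a) (z a)) := by
  unfold facts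
  fun_prop

theorem poly_chk {α : Type} [TEnc α] {V : Ent → Bool} (hV : Poly V)
    {Z : α → List (List Bool × List Bool)} (hZ : Poly Z) {cap T : α → ℕ} (hcap : Poly cap)
    (hT : Poly T) {E : α → List Ent} (hE : Poly E) :
    Poly (fun a => chk V (Z a) (cap a) (T a) (E a)) := by
  unfold chk key
  fun_prop

end Pool.Agent.H75C.NX
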