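import Pool.Agent.H75C.NX.Embed

/-!
# The restricted classes
-/

namespace Pool.Agent.H75C.NX

open Pool.Agent.NPC Pool.Agent.H660R2.NX

attribute [local irreducible] unpair

theorem exp_mono (n c : ℕ) : n ^ c + c + 1 ≤ n ^ (c + 2) + (c + 2) := by
  rcases Nat.eq_zero_or_pos n with rfl | hn
  · rcases Nat.eq_zero_or_pos c with rfl | hc
    · simp
    · rw [zero_pow (by omega), zero_pow (by omega)]
      omega
  · have : n ^ c ≤ n ^ (c + 2) := Nat.pow_le_pow_right hn (by omega)
    omega

theorem finset_short (k : ℕ) : (allStr k).toFinset.card < 2 ^ (k + 1) := by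
  rw [List.toFinset_card_of_nodup (nodup_allStr k)]
  have := length_allStr k
  omega

/-- Sets of queries that are images of the short strings are small. -/
theorem encard_le_of_image {Q : Set (List Bool)} {g : List Bool → List Bool} {k m : ℕ}
    (h : ∀ q ∈ Q, ∃ s : List Bool, s.length ≤ k ∧ g s = q) (hm : k + 1 ≤ m) :
    Q.encard ≤ ((2 ^ m : ℕ) : ℕ∞) := by
  classical
  have h1 : Q ⊆ (((allStr k).toFinset.image g : Finset (List Bool)) : Set (List Bool)) := by
    intro q hq
    obtain ⟨s, hs, hs'⟩ := h q hq
    rw [Finset.mem_coe, Finset.mem_image]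
    exact ⟨s, by rw [List.mem_toFinset, mem_allStr]; exact hs, hs'⟩
  refine (Set.encard_le_encard h1).trans ?_
  rw [Set.encard_coe_eq_coe_finsetCard]
  have h2 : ((allStr k).toFinset.image g).card ≤ 2 ^ m :=
    Finset.card_image_le.trans ((finset_short k).le.trans (Nat.pow_le_pow_right (by norm_num) hm))
  exact_mod_cast h2

/-- Monotonicity. -/
theorem few_mono {c : ℕ} {L : Set (List Bool)} (h : InPNPFew c Set.univ L) :
    InPNPFew (c + 2) Set.univ L := by
  obtain ⟨f, A, r, a, hf, hA, ha, hL⟩ := h
  refine ⟨f, A, r, a, hf, hA, fun n => (ha n).trans ?_, fun x hx => ⟨(hL x hx).1,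
    (hL x hx).2.trans ?_⟩⟩
  · have := exp_mono n c; omega
  · have := exp_mono x.length c
    have h2 : 2 ^ (x.length ^ c + c) ≤ 2 ^ (x.length ^ (c + 2) + (c + 2)) :=
      Nat.pow_le_pow_right (by norm_num) (by omega)
    exact_mod_cast h2

/-! ### Few queries -/

theorem few_of_num {c : ℕ} {L : Set (List Bool)} (h : InPNPNum c Set.univ L) :
    InPNPFew (c + 2) Set.univ L := by
  obtain ⟨f, A, a, hf, hA, ha, hL⟩ := h
  refine ⟨f, A, Polynomial.X ^ c + Polynomial.C c, a, hf, hA, fun n => (ha n).trans ?_,
    fun x hx => ⟨?_, ?_⟩⟩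
  · have := exp_mono n c; omega
  · have := hL x hx
    simpa using this
  · refine encard_le_of_image (g := fun s => (alg f x (a x.length) s).tail)
      (k := x.length ^ c + c) ?_ (exp_mono _ _)
    rintro q ⟨_, h, h1, _, h2⟩
    simp only [Polynomial.eval_add, Polynomial.eval_pow, Polynomial.eval_X,
      Polynomial.eval_C] at h1
    exact ⟨h, h1.le, by rw [h2]; rfl⟩

/-! ### Short queries -/

/-- Halting instead of asking a long query. -/
def fLen (c : ℕ) (f : List Bool → List Bool) (y : List Bool) : List Bool :=
  if (f y).head? = some false ∧ (unpair (unpair y).1).1.length ^ c + c < (f y).tail.length then []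
  else f y

theorem poly_fLen {c : ℕ} {f : List Bool → List Bool} (hf : Poly f) : Poly (fLen c f) := by
  have h1 : UPoly (fun y : List Bool => (unpair (unpair y).1).1.length) :=
    UPoly.length (by fun_prop)
  have h2 : Poly (fun y : List Bool => (unpair (unpair y).1).1.length ^ c + c) :=
    (upoly_of_eval (f := fun n => n ^ c + c) h1 (Polynomial.X ^ c + Polynomial.C c)
      (fun n => by simp)).toPoly
  unfold fLen
  fun_prop

theorem alg_fLen {c : ℕ} {f : List Bool → List Bool} {x a h : List Bool} :
    alg (fLen c f) x a h = if (alg f x a h).head? = some false ∧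
      x.length ^ c + c < (alg f x a h).tail.length then [] else alg f x a h := by
  unfold alg fLen
  simp only [unpair_pairBits]

theorem few_of_len {c : ℕ} {L : Set (List Bool)} (h : InPNPLen c Set.univ L) :
    InPNPFew (c + 2) Set.univ L := by
  obtain ⟨f, A, r, a, hf, hA, ha, hL⟩ := h
  refine ⟨fLen c f, A, r, a, polyTime_of_poly' (poly_fLen (poly_of_polyTime hf)), hA,
    fun n => (ha n).trans ?_, fun x hx => ⟨?_, ?_⟩⟩
  · have := exp_mono n c; omega
  · obtain ⟨⟨h, h1, h2, h3, h4⟩, h5⟩ := hL x hx
    have hsame : ∀ h' : List Bool, Correct (alg f x (a x.length)) A h' →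
        alg (fLen c f) x (a x.length) h' = alg f x (a x.length) h' := by
      intro h' hc
      rw [alg_fLen, if_neg]
      rintro ⟨h6, h7⟩
      rw [head?_false] at h6
      obtain ⟨q, hq⟩ := h6
      have := h5 h' q hc hq
      rw [hq, List.tail_cons] at h7
      omega
    have hpre : ∀ i, Correct (alg f x (a x.length)) A (h.take i) := by
      intro i
      exact CorrectF.take (f := f) (z := pairBits x (a x.length)) h2 i
    refine ⟨h, h1, ?_, ?_, ?_⟩
    · intro i hi
      obtain ⟨q, hq, hq'⟩ := h2 i hi
      exact ⟨q, by rw [hsame _ (hpre i)]; exact hq, hq'⟩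
    · rw [hsame h h2]; exact h3
    · rw [hsame h h2]; exact h4
  · refine encard_le_of_image (g := fun s => s) (k := x.length ^ c + c) ?_ (exp_mono _ _)
    rintro q ⟨_, h, h1, _, h2⟩
    refine ⟨q, ?_, rfl⟩
    rw [alg_fLen] at h2
    split_ifs at h2 with h3
    by_contra h4
    apply h3
    rw [h2]
    simp only [List.head?_cons, List.tail_cons, true_and]
    omega

/-! ### Small memory -/

/-- One guarded update of the memory. -/
def stG (u : List Bool → List Bool) (n : ℕ) (z s : List Bool) (b : Bool) : List Bool :=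
  if s.length ≤ n then u (pairBits (pairBits z s) [b]) else s

/-- The guarded memory. -/
def memG (u : List Bool → List Bool) (n : ℕ) (z h : List Bool) : List Bool :=
  h.foldl (stG u n z) []

/-- The guarded algorithm. -/
def fMem (c : ℕ) (g u : List Bool → List Bool) (y : List Bool) : List Bool :=
  if (memG u ((unpair (unpair y).1).1.length ^ c + c) (unpair y).1 (unpair y).2).length ≤
      (unpair (unpair y).1).1.length ^ c + c then
    g (pairBits (unpair y).1
      (memG u ((unpair (unpair y).1).1.length ^ c + c) (unpair y).1 (unpair y).2)) else []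

theorem length_memG {u : List Bool → List Bool} {lu : Polynomial ℕ}
    (hlu : ∀ y, (u y).length ≤ lu.eval y.length) (n : ℕ) (z : List Bool) :
    ∀ (h s : List Bool), s.length ≤ n + lu.eval (2 * (2 * z.length + 1 + n) + 1 + 1) →
      (h.foldl (stG u n z) s).length ≤ n + lu.eval (2 * (2 * z.length + 1 + n) + 1 + 1)
  | [], s, hs => hs
  | b :: h, s, hs => by
    rw [List.foldl_cons]
    apply length_memG hlu n z h
    unfold stG
    split_ifs with h1
    · refine (hlu _).trans ((eval_mono lu ?_).trans (Nat.le_add_left _ _))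
      rw [length_pairBits, length_pairBits]
      simp only [List.length_cons, List.length_nil]
      omega
    · exact hs

theorem poly_memG {α : Type} [TEnc α] {u : List Bool → List Bool} (hu : PolyTime u) {n : α → ℕ}
    {z h : α → List Bool} (hn : UPoly n) (hz : Poly z) (hh : Poly h) :
    Poly (fun a => memG u (n a) (z a) (h a)) := by
  obtain ⟨lu, hlu⟩ := length_bound hu
  have hu' : Poly u := poly_of_polyTime hu
  have hn' : Poly n := hn.toPoly
  obtain ⟨q1, hq1⟩ := Poly.sz_le hn
  obtain ⟨q2, hq2⟩ := Poly.sz_le hz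
  have hstep : Poly (fun p : α × List Bool × Bool => stG u (n p.1) (z p.1) p.2.1 p.2.2) := by
    have h1 : Poly (fun p : α × List Bool × Bool => u (pairBits (pairBits (z p.1) p.2.1) [p.2.2])) :=
      hu'.comp (by fun_prop)
    unfold stG
    fun_prop
  unfold memG
  refine Poly.foldl (l := h) (s := fun _ => []) (F := fun a => stG u (n a) (z a)) hh
    (by fun_prop) hstep
    (4 * (q1 + lu.comp (2 * (2 * q2 + 1 + q1) + 1 + 1)) + 1) ?_
  intro a k _
  have h1 := length_memG hlu (n a) (z a) ((h a).take k) [] (by simp)
  have h2 := length_lt_sz (List.replicate (n a) ())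
  rw [List.length_replicate] at h2
  have h3 := hq1 a
  have h4 := length_lt_sz (z a)
  have h5 := hq2 a
  have h6 : lu.eval (2 * (2 * (z a).length + 1 + n a) + 1 + 1) ≤
      lu.eval (2 * (2 * q2.eval (sz a) + 1 + q1.eval (sz a)) + 1 + 1) := by
    apply eval_mono
    omega
  refine (sz_listBool_le _).trans ?_
  simp only [Polynomial.eval_add, Polynomial.eval_mul, Polynomial.eval_comp, Polynomial.eval_one,
    Polynomial.eval_ofNat]
  omega

theorem alg_fMem {c : ℕ} {g u : List Bool → List Bool} {x a h : List Bool} :
    alg (fMem c g u) x a h = if (memG u (x.length ^ c + c) (pairBits x a) h).length ≤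
      x.length ^ c + c then g (pairBits (pairBits x a) (memG u (x.length ^ c + c) (pairBits x a) h))
      else [] := by
  unfold alg fMem
  simp only [unpair_pairBits]

theorem poly_fMem {c : ℕ} {g u : List Bool → List Bool} (hg : PolyTime g) (hu : PolyTime u) :
    Poly (fMem c g u) := by
  have hg' : Poly g := poly_of_polyTime hg
  have h1 : UPoly (fun y : List Bool => (unpair (unpair y).1).1.length) :=
    UPoly.length (by fun_prop)
  have h2 : UPoly (fun y : List Bool => (unpair (unpair y).1).1.length ^ c + c) :=
    upoly_of_eval (f := fun n => n ^ c + c) h1 (Polynomial.X ^ c + Polynomial.C c)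
      (fun n => by simp)
  have h3 : Poly (fun y : List Bool => (unpair (unpair y).1).1.length ^ c + c) := h2.toPoly
  have h4 : Poly (fun y : List Bool => memG u ((unpair (unpair y).1).1.length ^ c + c)
      (unpair y).1 (unpair y).2) := poly_memG hu h2 (by fun_prop) (by fun_prop)
  have h5 : Poly (fun y : List Bool => g (pairBits (unpair y).1
      (memG u ((unpair (unpair y).1).1.length ^ c + c) (unpair y).1 (unpair y).2))) :=
    hg'.comp (poly_pairBits (by fun_prop) h4)
  unfold fMem
  exact NPC.Poly.ite (NPC.Poly.decide_le (NPC.Poly.length h4) h3) h5 (NPC.Poly.const _)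

theorem memG_eq {u : List Bool → List Bool} {x a : List Bool} {n : ℕ} : ∀ h : List Bool,
    (∀ i ≤ h.length, (mem u x a (h.take i)).length ≤ n) →
      memG u n (pairBits x a) h = mem u x a h := by
  intro h
  induction h using List.reverseRecOn with
  | nil => intro _; rfl
  | append_singleton h b ih =>
    intro hh
    have h1 : ∀ i ≤ h.length, (mem u x a (h.take i)).length ≤ n := by
      intro i hi
      have := hh i (by rw [List.length_append]; omega)
      rwa [List.take_append_of_le_length hi] at this
    have h2 := ih h1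
    have h3 := h1 h.length le_rfl
    rw [List.take_length] at h3
    unfold memG mem at h2 ⊢
    unfold mem at h3
    rw [List.foldl_append, List.foldl_append, h2]
    simp only [List.foldl_cons, List.foldl_nil]
    unfold stG
    rw [if_pos h3]

theorem few_of_mem {c : ℕ} {L : Set (List Bool)} (h : InPNPMem c Set.univ L) :
    InPNPFew (c + 2) Set.univ L := by
  obtain ⟨g, u, A, r, a, hg, hu, hA, ha, hL⟩ := h
  refine ⟨fMem c g u, A, r, a, polyTime_of_poly' (poly_fMem hg hu), hA,
    fun n => (ha n).trans ?_, fun x hx => ⟨?_, ?_⟩⟩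
  · have := exp_mono n c; omega
  · obtain ⟨⟨h, h1, h2, h3, h4⟩, h5⟩ := hL x hx
    have htake : ∀ (h' : List Bool) (i : ℕ), Correct (memAlg g u x (a x.length)) A h' →
        Correct (memAlg g u x (a x.length)) A (h'.take i) := by
      intro h' i hc j hj
      rw [List.length_take] at hj
      obtain ⟨q, hq, hq'⟩ := hc j (by omega)
      refine ⟨q, ?_, ?_⟩
      · rw [List.take_take, min_eq_left (by omega)]
        exact hq
      · rw [List.getElem_take]
        exact hq'
    have hsame : ∀ h' : List Bool, Correct (memAlg g u x (a x.length)) A h' →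
        alg (fMem c g u) x (a x.length) h' = memAlg g u x (a x.length) h' := by
      intro h' hc
      have e1 : memG u (x.length ^ c + c) (pairBits x (a x.length)) h' =
          mem u x (a x.length) h' := memG_eq h' (fun i _ => h5 _ (htake h' i hc))
      rw [alg_fMem, e1, if_pos (h5 h' hc)]
      rfl
    refine ⟨h, h1, ?_, ?_, ?_⟩
    · intro i hi
      obtain ⟨q, hq, hq'⟩ := h2 i hi
      exact ⟨q, by rw [hsame _ (htake h i h2)]; exact hq, hq'⟩
    · rw [hsame h h2]; exact h3
    · rw [hsame h h2]; exact h4
  · refine encard_le_of_image (g := fun s => (g (pairBits (pairBits x (a x.length)) s)).tail)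
      (k := x.length ^ c + c) ?_ (exp_mono _ _)
    rintro q ⟨_, h, h1, _, h2⟩
    rw [alg_fMem] at h2
    split_ifs at h2 with h3
    exact ⟨_, h3, by rw [h2]; rfl⟩

/-! ### Nondeterministic exponential time with a fixed exponent, and advice -/

/-- `(NTIME(2^O(n^c)) ∩ EXP) / (n^c + c)`: with advice strings `a n` of length at most `n ^ c + c` a
string `x` of length `n` is in `L` iff the predicate `R` holds for `x` and `a n`; here `R x b`, for
strings `b` of length at most `n ^ c + c`, has certificates of length `2 ^ (k (n ^ c + 1))` verifiable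
in polynomial time with `V`, and is decided by `G` in time polynomial in `2 ^ p(n)`. -/
def InNTExp (c : ℕ) (L : Set (List Bool)) : Prop :=
  ∃ (R : List Bool → List Bool → Prop) (V G : List Bool → List Bool) (p : Polynomial ℕ) (k : ℕ)
    (a : ℕ → List Bool), PolyTime V ∧ PolyTime G ∧ (∀ n, (a n).length ≤ n ^ c + c) ∧
    (∀ x b : List Bool, b.length ≤ x.length ^ c + c →
      (R x b ↔ ∃ w : List Bool, w.length ≤ 2 ^ (k * (x.length ^ c + 1)) ∧
        V (pairBits (pairBits x b) w) = [true]) ∧
      (R x b ↔ G (pairBits (pairBits x b) (List.replicate (2 ^ p.eval x.length) false)) =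
        [true])) ∧
    ∀ x, x ∈ L ↔ R x (a x.length)

theorem big_of_ntExp {c : ℕ} {L : Set (List Bool)} (h : InNTExp c L) : Big (c + 2) L := by
  obtain ⟨R, V, G, p, k, a, hV, hG, ha, hR, hL⟩ := h
  have hV' : Poly V := poly_of_polyTime hV
  have hG' : Poly G := poly_of_polyTime hG
  set M : Mach := ⟨fun e => decide (e.2.1.length ≤ e.1.length ^ c + c) && (decide (e.2.2.1 = []) &&
      (decide (e.2.2.2.length ≤ 2 ^ (k * (e.1.length ^ c + 1))) &&
        decide (V (pairBits (pairBits e.1 e.2.1) e.2.2.2) = [true]))),
    fun t => decide (t.2.1.length ≤ t.1.length ^ c + c) && (decide (t.2.2.1 = []) &&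
      decide (G (pairBits (pairBits t.1 t.2.1) ((t.2.2.2.take (2 ^ p.eval t.1.length)).map
        (fun _ => false))) = [true])),
    fun t => decide ([] ∈ t.2.2), p, Polynomial.X ^ k⟩ with hM
  have hS : ∀ x b q, q ∈ M.S x b ↔ b.length ≤ x.length ^ c + c ∧ q = [] ∧ R x b := by
    intro x b q
    unfold Mach.S
    rw [List.mem_toFinset, List.mem_filter, mem_allStr, hM]
    simp only [Bool.and_eq_true, decide_eq_true_eq]
    rw [List.take_of_length_le (by simp), List.map_replicate]
    constructor
    · rintro ⟨_, h1, h2, h3⟩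
      exact ⟨h1, h2, (hR x b h1).2.2 h3⟩
    · rintro ⟨h1, h2, h3⟩
      exact ⟨by rw [h2]; simp, h1, h2, (hR x b h1).2.1 h3⟩
  refine ⟨M, a, ?_⟩
  have hlen1 : UPoly (fun e : Ent => e.1.length) := UPoly.length (by fun_prop)
  have hlen2 : UPoly (fun e : List Bool × List Bool × List Bool × List Unit => e.1.length) :=
    UPoly.length (by fun_prop)
  refine ⟨?_, ?_, ?_, ?_, ?_, ?_, ?_, ?_, ?_, ?_⟩
  · have h1 : Poly (fun e : Ent => e.1.length ^ c + c) :=
      (upoly_of_eval (f := fun n => n ^ c + c) hlen1 (Polynomial.X ^ c + Polynomial.C c)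
        (fun n => by simp)).toPoly
    have h2 : Poly (fun e : Ent => 2 ^ (k * (e.1.length ^ c + 1))) :=
      poly_pow2 (upoly_of_eval (f := fun n => k * (n ^ c + 1)) hlen1
        (Polynomial.C k * (Polynomial.X ^ c + 1)) (fun n => by simp))
    have h3 : Poly (fun e : Ent => V (pairBits (pairBits e.1 e.2.1) e.2.2.2)) :=
      hV'.comp (by fun_prop)
    simp only [hM]
    fun_prop
  · have h1 : Poly (fun e : List Bool × List Bool × List Bool × List Unit =>
        e.1.length ^ c + c) :=
      (upoly_of_eval (f := fun n => n ^ c + c) hlen2 (Polynomial.X ^ c + Polynomial.C c)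
        (fun n => by simp)).toPoly
    have h2 : Poly (fun e : List Bool × List Bool × List Bool × List Unit =>
        e.2.2.2.take (2 ^ p.eval e.1.length)) :=
      poly_take (by fun_prop) (poly_pow2 (UPoly.eval hlen2 p))
    have h3 : Poly (fun e : List Bool × List Bool × List Bool × List Unit =>
        G (pairBits (pairBits e.1 e.2.1) ((e.2.2.2.take (2 ^ p.eval e.1.length)).map
          (fun _ => false)))) := hG'.comp (by fun_prop)
    simp only [hM]
    fun_prop
  · simp only [hM]
    fun_prop
  · intro x b l l' hl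
    simp only [hM]
    rw [decide_eq_decide]
    exact hl []
  · intro x b q pad _ hp
    simp only [hM] at hp ⊢
    rw [List.take_of_length_le (l := List.replicate _ ()) (by simp)]
    have e1 : (pad.take (2 ^ p.eval x.length)).map (fun _ => false) =
        (List.replicate (2 ^ p.eval x.length) ()).map (fun _ => false) := by
      apply List.ext_getElem
      · simp [hp]
      · intro i h1 h2; simp
    rw [e1]
  · intro x b q w _ h
    rw [hS]
    simp only [hM, Bool.and_eq_true, decide_eq_true_eq] at h
    obtain ⟨h1, h2, h3, h4⟩ := h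
    exact ⟨h1, h2, (hR x b h1).1.2 ⟨w, h3, h4⟩⟩
  · intro x b q _ h
    rw [hS] at h
    obtain ⟨h1, h2, h3⟩ := h
    obtain ⟨w, hw, hw'⟩ := (hR x b h1).1.1 h3
    refine ⟨w, hw.trans ?_, ?_⟩
    · simp only [hM, Polynomial.eval_pow, Polynomial.eval_X]
      rw [Nat.mul_comm, pow_mul]
      refine Nat.pow_le_pow_left ((Nat.pow_le_pow_right (by norm_num) ?_).trans
        (Nat.le_add_right _ _)) k
      have := exp_mono x.length c
      rcases Nat.eq_zero_or_pos c with rfl | hc
      · omega
      · omega
    · simp only [hM, Bool.and_eq_true, decide_eq_true_eq]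
      exact ⟨h1, h2, hw, hw'⟩
  · intro n
    have := exp_mono n c
    have := ha n
    omega
  · intro x
    have h1 : M.S x (a x.length) ⊆ {[]} := by
      intro q hq
      rw [hS] at hq
      rw [Finset.mem_singleton]
      exact hq.2.1
    refine (Finset.card_le_card h1).trans ?_
    rw [Finset.card_singleton]
    exact Nat.one_le_two_pow
  · intro x
    rw [hL]
    simp only [hM, decide_eq_true_eq]
    rw [← hM, Finset.mem_toList, hS]
    constructor
    · exact fun h => ⟨ha _, rfl, h⟩
    · exact fun h => h.2.2

/-- **Main theorem.** -/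
theorem main (c : ℕ) : ∃ L : Set (List Bool), InNEXP L ∧ ¬ InPNPFew c Set.univ L ∧
    ¬ InPNPLen c Set.univ L ∧ ¬ InPNPMem c Set.univ L ∧ ¬ InPNPNum c Set.univ L ∧
    ¬ InNTExp c L := by
  obtain ⟨L, h1, h2⟩ := exists_not_big (c + 2)
  exact ⟨L, h1, fun h => h2 (big_of_few (few_mono h)), fun h => h2 (big_of_few (few_of_len h)),
    fun h => h2 (big_of_few (few_of_mem h)), fun h => h2 (big_of_few (few_of_num h)),
    fun h => h2 (big_of_ntExp h)⟩

end Pool.Agent.H75C.NX
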