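import Pool.Agent.H75C.NX.Hard

/-!
# Polynomial-time algorithms with an oracle in `NP` and few potential yes-queries
-/

namespace Pool.Agent.H75C.NX

open Pool.Agent.NPC Pool.Agent.H660R2.NX

attribute [local irreducible] unpair

/-- Certificates of a potential yes-query: the history, the `NP`-certificates of the answers `true`,
and the `NP`-certificate of the query. -/
abbrev CertQ : Type := List Bool × List (List Bool) × List Bool

section Few

variable (f VA : List Bool → List Bool) (pA r lf : Polynomial ℕ)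

/-- The test of an `NP`-certificate. -/
def tstA (q w : List Bool) : Bool :=
  decide (w.length ≤ pA.eval q.length) && decide (VA (pairBits q w) = [true])

/-- Membership in the oracle, with padding. -/
def memA (q : List Bool) (pad : List Unit) : Bool :=
  (allB (pA.eval q.length) pad).any (fun w => tstA VA pA q w)

/-- The history `h` has the right form, and its answers `true` satisfy the test `O i q`. -/
def okH (O : ℕ → List Bool → Bool) (z h : List Bool) : Bool :=
  (List.range h.length).all (fun i => decide ((f (pairBits z (h.take i))).head? = some false) &&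
    (!(h.getD i false) || O i (f (pairBits z (h.take i))).tail))

/-- The deterministic test. -/
def GF (t : List Bool × List Bool × List Bool × List Unit) : Bool :=
  (allB (r.eval t.1.length) t.2.2.2).any (fun h => decide (h.length < r.eval t.1.length) &&
    (decide (f (pairBits (pairBits t.1 t.2.1) h) = false :: t.2.2.1) &&
    (memA VA pA t.2.2.1 t.2.2.2 &&
      okH f (fun _ q => memA VA pA q t.2.2.2) (pairBits t.1 t.2.1) h)))

/-- The test of a certificate. -/
def VF (e : Ent) : Bool :=
  (unbits CertQ e.2.2.2).elim false (fun t => decide (t.1.length < r.eval e.1.length) &&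
    (decide (f (pairBits (pairBits e.1 e.2.1) t.1) = false :: e.2.2.1) &&
    (tstA VA pA e.2.2.1 t.2.2 &&
      okH f (fun i q => tstA VA pA q (t.2.1.getD i [])) (pairBits e.1 e.2.1) t.1)))

/-- The decision. -/
def DF (t : List Bool × List Bool × List (List Bool)) : Bool :=
  decide (run f (fun q => decide (q ∈ t.2.2)) (pairBits t.1 t.2.1) (r.eval t.1.length + 1) =
    some true)

theorem head?_false {l : List Bool} : l.head? = some false ↔ ∃ q, l = false :: q := by
  cases l with
  | nil => simp
  | cons b q =>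
    simp only [List.head?_cons, Option.some.injEq, List.cons.injEq]
    constructor
    · rintro rfl; exact ⟨q, rfl, rfl⟩
    · rintro ⟨_, h, _⟩; exact h

theorem okH_iff {O : ℕ → List Bool → Bool} {z h : List Bool} :
    okH f O z h = true ↔ ∀ (i : ℕ) (hi : i < h.length), ∃ q : List Bool,
      f (pairBits z (h.take i)) = false :: q ∧ (h[i] = true → O i q = true) := by
  unfold okH
  rw [List.all_eq_true]
  simp only [List.mem_range, Bool.and_eq_true, decide_eq_true_eq, Bool.or_eq_true,
    Bool.not_eq_true']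
  refine forall_congr' fun i => ?_
  refine forall_congr' fun hi => ?_
  rw [head?_false, List.getD_eq_getElem _ _ hi]
  constructor
  · rintro ⟨⟨q, hq⟩, h1⟩
    refine ⟨q, hq, fun h2 => ?_⟩
    rw [hq] at h1
    rcases h1 with h1 | h1
    · rw [h2] at h1; simp at h1
    · exact h1
  · rintro ⟨q, hq, h1⟩
    refine ⟨⟨q, hq⟩, ?_⟩
    rw [hq]
    by_cases h2 : h[i] = true
    · right; exact h1 h2
    · left; simpa using h2

variable {f VA pA r lf} {A : Set (List Bool)}

theorem tstA_iff (hA : ∀ q, q ∈ A ↔ ∃ w : List Bool, w.length ≤ pA.eval q.length ∧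
    VA (pairBits q w) = [true]) {q : List Bool} : q ∈ A ↔ ∃ w, tstA VA pA q w = true := by
  rw [hA]
  simp only [tstA, Bool.and_eq_true, decide_eq_true_eq]

theorem memA_iff (hA : ∀ q, q ∈ A ↔ ∃ w : List Bool, w.length ≤ pA.eval q.length ∧
    VA (pairBits q w) = [true]) {q : List Bool} {pad : List Unit}
    (hp : 2 ^ pA.eval q.length ≤ pad.length) : memA VA pA q pad = true ↔ q ∈ A := by
  unfold memA
  rw [allB_eq hp, List.any_eq_true, hA]
  simp only [tstA, Bool.and_eq_true, decide_eq_true_eq, mem_allStr]
  constructor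
  · rintro ⟨w, _, h1, h2⟩
    exact ⟨w, h1, h2⟩
  · rintro ⟨w, h1, h2⟩
    exact ⟨w, h1, h1, h2⟩

/-- The length of the arguments of `f`. -/
noncomputable def lenP (c : ℕ) (r : Polynomial ℕ) : Polynomial ℕ :=
  2 * (2 * Polynomial.X + 1 + (Polynomial.X ^ c + Polynomial.C c)) + 1 + r

theorem lenP_eval (c : ℕ) (r : Polynomial ℕ) (n : ℕ) :
    (lenP c r).eval n = 2 * (2 * n + 1 + (n ^ c + c)) + 1 + r.eval n := by
  simp [lenP]

/-- The bound for the length of the queries. -/
noncomputable def qlP (c : ℕ) (r lf : Polynomial ℕ) : Polynomial ℕ := lf.comp (lenP c r)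

theorem query_length {c : ℕ} (hlf : ∀ y, (f y).length ≤ lf.eval y.length) {x b h q : List Bool}
    (hb : b.length ≤ x.length ^ c + c) (hh : h.length ≤ r.eval x.length)
    (hq : f (pairBits (pairBits x b) h) = false :: q) :
    q.length ≤ (qlP c r lf).eval x.length := by
  have h1 := hlf (pairBits (pairBits x b) h)
  rw [hq, List.length_cons] at h1
  have h2 : (pairBits (pairBits x b) h).length ≤ (lenP c r).eval x.length := by
    rw [lenP_eval, length_pairBits, length_pairBits]
    omega
  have h3 := eval_mono lf h2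
  unfold qlP
  rw [Polynomial.eval_comp]
  omega

/-- The exponent of the padding. -/
noncomputable def pF (c : ℕ) (pA r lf : Polynomial ℕ) : Polynomial ℕ :=
  r + qlP c r lf + pA.comp (qlP c r lf)

theorem pF_eval (c : ℕ) (pA r lf : Polynomial ℕ) (n : ℕ) :
    (pF c pA r lf).eval n = r.eval n + (qlP c r lf).eval n + pA.eval ((qlP c r lf).eval n) := by
  simp [pF, Polynomial.eval_comp]

theorem GF_iff {c : ℕ} (hlf : ∀ y, (f y).length ≤ lf.eval y.length)
    (hA : ∀ q, q ∈ A ↔ ∃ w : List Bool, w.length ≤ pA.eval q.length ∧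
    VA (pairBits q w) = [true]) {x b q : List Bool} {pad : List Unit}
    (hb : b.length ≤ x.length ^ c + c) (hp : 2 ^ (pF c pA r lf).eval x.length ≤ pad.length) :
    GF f VA pA r (x, b, q, pad) = true ↔ q ∈ YesQueriesF f A (pairBits x b) (r.eval x.length) := by
  rw [pF_eval] at hp
  have hm : ∀ {k : ℕ}, k ≤ r.eval x.length + (qlP c r lf).eval x.length +
      pA.eval ((qlP c r lf).eval x.length) → 2 ^ k ≤ pad.length :=
    fun hk => (Nat.pow_le_pow_right (by norm_num) hk).trans hp
  have hmem : ∀ h q : List Bool, h.length ≤ r.eval x.length →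
      f (pairBits (pairBits x b) h) = false :: q → (memA VA pA q pad = true ↔ q ∈ A) := by
    intro h q hh hq
    have h1 := query_length hlf hb hh hq
    have h2 := eval_mono pA h1
    exact memA_iff hA (hm (by omega))
  unfold GF YesQueriesF
  simp only
  rw [allB_eq (hm (by omega)), List.any_eq_true]
  simp only [Bool.and_eq_true, decide_eq_true_eq, mem_allStr, Set.mem_ofPred_eq]
  constructor
  · rintro ⟨h, h1, h2, h3, h4, h5⟩
    refine ⟨(hmem h q h1 h3).1 h4, h, h2, ?_, h3⟩
    rw [okH_iff] at h5
    intro i hi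
    obtain ⟨q', hq', h6⟩ := h5 i hi
    refine ⟨q', hq', fun h7 => ?_⟩
    exact (hmem _ q' (by rw [List.length_take]; omega) hq').1 (h6 h7)
  · rintro ⟨hqA, h, h2, h5, h3⟩
    refine ⟨h, h2.le, h2, h3, (hmem h q h2.le h3).2 hqA, ?_⟩
    rw [okH_iff]
    intro i hi
    obtain ⟨q', hq', h6⟩ := h5 i hi
    refine ⟨q', hq', fun h7 => ?_⟩
    exact (hmem _ q' (by rw [List.length_take]; omega) hq').2 (h6 h7)

theorem VF_sound (hA : ∀ q, q ∈ A ↔ ∃ w : List Bool, w.length ≤ pA.eval q.length ∧
    VA (pairBits q w) = [true]) {x b q w : List Bool} (h : VF f VA pA r (x, b, q, w) = true) :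
    q ∈ YesQueriesF f A (pairBits x b) (r.eval x.length) := by
  unfold VF at h
  simp only at h
  cases ht : unbits CertQ w with
  | none => rw [ht] at h; simp at h
  | some t =>
    rw [ht] at h
    simp only [Option.elim_some, Bool.and_eq_true, decide_eq_true_eq] at h
    obtain ⟨h1, h2, h3, h4⟩ := h
    refine ⟨(tstA_iff hA).2 ⟨_, h3⟩, t.1, h1, ?_, h2⟩
    rw [okH_iff] at h4
    intro i hi
    obtain ⟨q', hq', h6⟩ := h4 i hi
    exact ⟨q', hq', fun h7 => (tstA_iff hA).2 ⟨_, h6 h7⟩⟩

/-- A bound for the length of the certificates. -/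
noncomputable def cbP (c : ℕ) (pA r lf : Polynomial ℕ) : Polynomial ℕ :=
  (4 * r + 1) + (r * (4 * pA.comp (qlP c r lf) + 2) + 1) + (4 * pA.comp (qlP c r lf) + 1) + 2

theorem VF_complete {c : ℕ} (hlf : ∀ y, (f y).length ≤ lf.eval y.length)
    (hA : ∀ q, q ∈ A ↔ ∃ w : List Bool, w.length ≤ pA.eval q.length ∧
    VA (pairBits q w) = [true]) {x b q : List Bool} (hb : b.length ≤ x.length ^ c + c)
    (h : q ∈ YesQueriesF f A (pairBits x b) (r.eval x.length)) :
    ∃ w : List Bool, w.length ≤ (cbP c pA r lf).eval x.length ∧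
      VF f VA pA r (x, b, q, w) = true := by
  classical
  obtain ⟨hqA, h, h2, h5, h3⟩ := h
  have hwit : ∀ q, ∃ w : List Bool, q ∈ A → w.length ≤ pA.eval q.length ∧
      tstA VA pA q w = true := by
    intro q
    by_cases hq : q ∈ A
    · obtain ⟨w, h1, h2⟩ := (hA q).1 hq
      refine ⟨w, fun _ => ⟨h1, ?_⟩⟩
      unfold tstA
      rw [decide_eq_true h1, decide_eq_true h2]
      rfl
    · exact ⟨[], fun h => absurd h hq⟩
  choose wit hwit using hwit
  set B := pA.eval ((qlP c r lf).eval x.length) with hB
  have hwl : ∀ h q : List Bool, h.length ≤ r.eval x.length →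
      f (pairBits (pairBits x b) h) = false :: q → q ∈ A → (wit q).length ≤ B := by
    intro h q hh hq hqA
    exact (hwit q hqA).1.trans (eval_mono pA (query_length hlf hb hh hq))
  set ws : List (List Bool) := (List.range h.length).map (fun i =>
    if h.getD i false = true then wit (f (pairBits (pairBits x b) (h.take i))).tail else [])
    with hws
  refine ⟨bits ((h, ws, wit q) : CertQ), ?_, ?_⟩
  · rw [bits_length]
    simp only [sz_pair]
    have e1 : sz h ≤ 4 * r.eval x.length + 1 := sz_str_le h2.le
    have e2 : sz (wit q) ≤ 4 * B + 1 := sz_str_le (hwl h q h2.le h3 hqA)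
    have e3 : sz ws ≤ h.length * (4 * B + 1 + 1) + 1 := by
      have := sz_le_length_mul ws (4 * B + 1) (by
        intro w hw
        rw [hws, List.mem_map] at hw
        obtain ⟨i, hi, rfl⟩ := hw
        rw [List.mem_range] at hi
        apply sz_str_le
        split_ifs with h6
        · obtain ⟨q', hq', h7⟩ := h5 i hi
          rw [List.getD_eq_getElem _ _ hi] at h6
          rw [hq', List.tail_cons]
          exact hwl _ q' (by rw [List.length_take]; omega) hq' (h7 h6)
        · simp)
      rwa [hws, List.length_map, List.length_range, ← hws] at this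
    have e4 : h.length * (4 * B + 1 + 1) ≤ r.eval x.length * (4 * B + 2) :=
      Nat.mul_le_mul h2.le le_rfl
    have e5 : (cbP c pA r lf).eval x.length = (4 * r.eval x.length + 1) +
        (r.eval x.length * (4 * B + 2) + 1) + (4 * B + 1) + 2 := by
      simp [cbP, Polynomial.eval_comp, hB]
    omega
  · unfold VF
    simp only
    rw [unbits_bits]
    simp only [Option.elim_some, Bool.and_eq_true, decide_eq_true_eq]
    refine ⟨h2, h3, (hwit q hqA).2, ?_⟩
    rw [okH_iff]
    intro i hi
    obtain ⟨q', hq', h7⟩ := h5 i hi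
    refine ⟨q', hq', fun h8 => ?_⟩
    have e6 : ws.getD i [] = wit q' := by
      rw [List.getD_eq_getElem _ _ (by rw [hws, List.length_map, List.length_range]; exact hi)]
      simp only [hws, List.getElem_map, List.getElem_range]
      rw [List.getD_eq_getElem _ _ hi, if_pos h8, hq', List.tail_cons]
    rw [e6]
    exact (hwit q' (h7 h8)).2

/-! ### Polynomial time -/

section PT

variable {α : Type} [TEnc α]

theorem poly_tstA (hVA : Poly VA) {q w : α → List Bool} (hq : Poly q) (hw : Poly w) :
    Poly (fun a => tstA VA pA (q a) (w a)) := by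
  have h1 : Poly (fun a => pA.eval (q a).length) := (UPoly.eval (UPoly.length hq) pA).toPoly
  have h2 : Poly (fun a => VA (pairBits (q a) (w a))) := hVA.comp (poly_pairBits hq hw)
  unfold tstA
  fun_prop

theorem poly_memA (hVA : Poly VA) {q : α → List Bool} {pad : α → List Unit} (hq : Poly q)
    (hpad : Poly pad) : Poly (fun a => memA VA pA (q a) (pad a)) := by
  have h1 : Poly (fun a => allB (pA.eval (q a).length) (pad a)) :=
    poly_allB (UPoly.eval (UPoly.length hq) pA) hpad
  unfold memA
  exact NPC.Poly.any h1 (poly_tstA hVA (hq.comp (NPC.Poly.fst NPC.Poly.id))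
    (NPC.Poly.snd NPC.Poly.id))

theorem poly_okH (hf : Poly f) {O : α → ℕ → List Bool → Bool}
    (hO : Poly (fun p : α × ℕ × List Bool => O p.1 p.2.1 p.2.2)) {z h : α → List Bool}
    (hz : Poly z) (hh : Poly h) : Poly (fun a => okH f (O a) (z a) (h a)) := by
  have h1 : Poly (fun a => List.range (h a).length) := (UPoly.length hh).range
  have h2 : Poly (fun p : α × ℕ => (h p.1).take p.2) :=
    poly_take (hh.comp (NPC.Poly.fst NPC.Poly.id)) (NPC.Poly.snd NPC.Poly.id)
  have h3 : Poly (fun p : α × ℕ => f (pairBits (z p.1) ((h p.1).take p.2))) :=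
    hf.comp (poly_pairBits (hz.comp (NPC.Poly.fst NPC.Poly.id)) h2)
  have h4 : Poly (fun p : α × ℕ => O p.1 p.2 (f (pairBits (z p.1) ((h p.1).take p.2))).tail) :=
    hO.comp (f := fun p : α × ℕ => (p.1, p.2, (f (pairBits (z p.1) ((h p.1).take p.2))).tail))
      (NPC.Poly.pair (NPC.Poly.fst NPC.Poly.id) (NPC.Poly.pair (NPC.Poly.snd NPC.Poly.id)
        (NPC.Poly.tail h3)))
  have h5 : Poly (fun p : α × ℕ => (h p.1).getD p.2 false) :=
    NPC.Poly.getD (d := fun _ => false) (hh.comp (NPC.Poly.fst NPC.Poly.id))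
      (NPC.Poly.snd NPC.Poly.id) (NPC.Poly.const false)
  unfold okH
  refine NPC.Poly.all h1 (NPC.Poly.and ?_ (NPC.Poly.or (NPC.Poly.not h5) h4))
  exact NPC.Poly.dec_eq (NPC.Poly.head? h3) (NPC.Poly.const _)

theorem poly_GF (hf : Poly f) (hVA : Poly VA) : Poly (GF f VA pA r) := by
  have e1 : Poly (fun t : List Bool × List Bool × List Bool × List Unit => t.1) := by fun_prop
  have h1 : Poly (fun t : List Bool × List Bool × List Bool × List Unit =>
      allB (r.eval t.1.length) t.2.2.2) :=
    poly_allB (UPoly.eval (UPoly.length e1) r) (by fun_prop)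
  have h2 : Poly (fun t : (List Bool × List Bool × List Bool × List Unit) × List Bool =>
      r.eval t.1.1.length) :=
    (UPoly.eval (UPoly.length (l := fun t : (List Bool × List Bool × List Bool × List Unit) ×
      List Bool => t.1.1) (by fun_prop)) r).toPoly
  have h3 : Poly (fun t : (List Bool × List Bool × List Bool × List Unit) × List Bool =>
      f (pairBits (pairBits t.1.1 t.1.2.1) t.2)) := hf.comp (by fun_prop)
  have h4 : Poly (fun t : (List Bool × List Bool × List Bool × List Unit) × List Bool =>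
      memA VA pA t.1.2.2.1 t.1.2.2.2) := poly_memA hVA (by fun_prop) (by fun_prop)
  have h5 : Poly (fun t : (List Bool × List Bool × List Bool × List Unit) × List Bool =>
      okH f (fun _ q => memA VA pA q t.1.2.2.2) (pairBits t.1.1 t.1.2.1) t.2) := by
    refine poly_okH hf (O := fun t : (List Bool × List Bool × List Bool × List Unit) × List Bool =>
      fun _ q => memA VA pA q t.1.2.2.2) ?_ (by fun_prop) (by fun_prop)
    exact poly_memA hVA (by fun_prop) (by fun_prop)
  unfold GF
  refine NPC.Poly.any h1 (NPC.Poly.and ?_ (NPC.Poly.and ?_ (NPC.Poly.and h4 h5)))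
  · exact NPC.Poly.decide_lt (by fun_prop) h2
  · exact NPC.Poly.dec_eq h3 (by fun_prop)

theorem poly_VF (hf : Poly f) (hVA : Poly VA) : Poly (VF f VA pA r) := by
  have h0 : Poly (unbits CertQ) := poly_unbits
  have h1 : Poly (fun e : Ent => unbits CertQ e.2.2.2) := h0.comp (by fun_prop)
  have h2 : Poly (fun p : Ent × CertQ => r.eval p.1.1.length) :=
    (UPoly.eval (UPoly.length (l := fun p : Ent × CertQ => p.1.1) (by fun_prop)) r).toPoly
  have h3 : Poly (fun p : Ent × CertQ => f (pairBits (pairBits p.1.1 p.1.2.1) p.2.1)) :=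
    hf.comp (by fun_prop)
  have h4 : Poly (fun p : Ent × CertQ => tstA VA pA p.1.2.2.1 p.2.2.2) :=
    poly_tstA hVA (by fun_prop) (by fun_prop)
  have h5 : Poly (fun p : Ent × CertQ => okH f (fun i q => tstA VA pA q (p.2.2.1.getD i []))
      (pairBits p.1.1 p.1.2.1) p.2.1) := by
    refine poly_okH hf (O := fun p : Ent × CertQ => fun i q => tstA VA pA q (p.2.2.1.getD i []))
      ?_ (by fun_prop) (by fun_prop)
    refine poly_tstA hVA (by fun_prop) ?_
    exact NPC.Poly.getD (d := fun _ => []) (by fun_prop) (by fun_prop) (NPC.Poly.const _)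
  unfold VF
  refine Poly.optElim h1 (by fun_prop) ?_
  refine NPC.Poly.and ?_ (NPC.Poly.and ?_ (NPC.Poly.and h4 h5))
  · exact NPC.Poly.decide_lt (by fun_prop) h2
  · exact NPC.Poly.dec_eq h3 (by fun_prop)

theorem poly_DF (hf : Poly f) : Poly (DF f r) := by
  have e1 : Poly (fun t : List Bool × List Bool × List (List Bool) => t.1) := by fun_prop
  have h1 : UPoly (fun t : List Bool × List Bool × List (List Bool) => r.eval t.1.length + 1) :=
    UPoly.add (UPoly.eval (UPoly.length e1) r) (UPoly.const 1)
  have h2 : Poly (fun t : List Bool × List Bool × List (List Bool) =>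
      run f (fun q => decide (q ∈ t.2.2)) (pairBits t.1 t.2.1) (r.eval t.1.length + 1)) :=
    poly_run (O := fun t : List Bool × List Bool × List (List Bool) => fun q =>
      decide (q ∈ t.2.2)) hf (by fun_prop) (by fun_prop) h1
  unfold DF
  exact NPC.Poly.dec_eq h2 (NPC.Poly.const _)

end PT

end Few

/-- Few potential yes-queries are few facts. -/
theorem big_of_few {c : ℕ} {L : Set (List Bool)} (h : InPNPFew c Set.univ L) : Big c L := by
  obtain ⟨f, A, r, a, hf, ⟨VA, pA, hVA, hA⟩, ha, hL⟩ := h
  obtain ⟨lf, hlf⟩ := length_bound hf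
  have hf' : Poly f := poly_of_polyTime hf
  have hVA' : Poly VA := poly_of_polyTime hVA
  have hS : ∀ x b q, b.length ≤ x.length ^ c + c →
      (q ∈ Mach.S ⟨VF f VA pA r, GF f VA pA r, DF f r, pF c pA r lf, cbP c pA r lf⟩ x b ↔
        q ∈ YesQueriesF f A (pairBits x b) (r.eval x.length)) := by
    intro x b q hb
    unfold Mach.S
    rw [List.mem_toFinset, List.mem_filter, mem_allStr]
    simp only
    rw [GF_iff hlf hA hb (by simp)]
    constructor
    · exact fun h => h.2
    · rintro h
      refine ⟨?_, h⟩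
      obtain ⟨_, h', h1, _, h2⟩ := h
      have h3 := query_length (r := r) hlf hb h1.le h2
      rw [pF_eval]
      omega
  refine ⟨⟨VF f VA pA r, GF f VA pA r, DF f r, pF c pA r lf, cbP c pA r lf⟩, a, ?_⟩
  refine ⟨poly_VF hf' hVA', poly_GF hf' hVA', poly_DF hf', ?_, ?_, ?_, ?_, ha, ?_, ?_⟩
  · intro x b l l' hl
    simp only [DF]
    have : (fun q => decide (q ∈ l)) = (fun q => decide (q ∈ l')) := by
      funext q
      rw [decide_eq_decide]
      exact hl q
    rw [this]
  · intro x b q pad hb hp
    rw [Bool.eq_iff_iff, GF_iff hlf hA hb hp, GF_iff hlf hA hb (by simp)]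
  · intro x b q w hb h
    exact (hS x b q hb).2 (VF_sound hA h)
  · intro x b q hb h
    obtain ⟨w, hw, hw'⟩ := VF_complete hlf hA hb ((hS x b q hb).1 h)
    exact ⟨w, hw.trans (eval_mono _ (Nat.le_add_left _ _)), hw'⟩
  · intro x
    have h1 := ((hL x (Set.mem_univ _)).2)
    rw [← yesQueriesF_eq] at h1
    have h2 : YesQueriesF f A (pairBits x (a x.length)) (r.eval x.length) =
        (↑(Mach.S ⟨VF f VA pA r, GF f VA pA r, DF f r, pF c pA r lf, cbP c pA r lf⟩ x
          (a x.length)) : Set (List Bool)) := by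
      ext q
      rw [Finset.mem_coe, hS x _ q (ha _)]
    rw [h2, Set.encard_coe_eq_coe_finsetCard] at h1
    exact_mod_cast h1
  · intro x
    have h1 := (hL x (Set.mem_univ _)).1
    rw [← decidesF_iff] at h1
    simp only [DF, decide_eq_true_eq]
    rw [run_decides (O := fun q => decide (q ∈ (Mach.S ⟨VF f VA pA r, GF f VA pA r, DF f r,
      pF c pA r lf, cbP c pA r lf⟩ x (a x.length)).toList)) h1 ?_ (Nat.lt_succ_self _)]
    · simp
    · intro h' q hh hc hq
      rw [decide_eq_true_eq, Finset.mem_toList, hS x _ q (ha _)]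
      constructor
      · exact fun h => h.1
      · exact fun h => ⟨h, h', hh, hc.yes, hq⟩

end Pool.Agent.H75C.NX
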