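import Pool.Agent.H75C.NX.Bound

/-!
# A language in `NEXP` which is not decided by machines with few facts
-/

namespace Pool.Agent.H75C.NX

open Pool.Agent.NPC Pool.Agent.H660R2.NX

attribute [local irreducible] unpair

/-- Polynomials are smaller than the exponential function. -/
theorem poly_lt_two_pow (P : Polynomial ℕ) : ∃ c, ∀ m ≥ c, P.eval m < 2 ^ m := by
  have h : (fun m : ℕ => ((P.eval m : ℕ) : ℝ)) =o[Filter.atTop] fun m : ℕ => (2 : ℝ) ^ m := by
    induction P using Polynomial.induction_on' with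
    | add p q hp hq =>
      simpa only [Polynomial.eval_add, Nat.cast_add] using hp.add hq
    | monomial k c =>
      simp only [Polynomial.eval_monomial, Nat.cast_mul, Nat.cast_pow]
      exact (isLittleO_pow_const_const_pow_of_one_lt k (by norm_num)).const_mul_left _
  have h1 := h.bound (show (0 : ℝ) < 1 / 2 by norm_num)
  obtain ⟨c, hc⟩ := Filter.eventually_atTop.1 h1
  refine ⟨c, fun m hm => ?_⟩
  have h2 := hc m hm
  rw [Real.norm_of_nonneg (by positivity), Real.norm_of_nonneg (by positivity)] at h2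
  have h3 : ((P.eval m : ℕ) : ℝ) < ((2 ^ m : ℕ) : ℝ) := by
    push_cast
    have : (0 : ℝ) < 2 ^ m := by positivity
    linarith
  exact_mod_cast h3

/-- The context: the parameter in unary, the advice for the first machine, its census. -/
abbrev CtxT : Type := List Unit × List Bool × ℕ
/-- Certificates. -/
abbrev CertT : Type := List Ent × List Ent × List Unit

/-- The raw verifier. -/
noncomputable def vraw (M M1 : Mach) (c : ℕ) (v : List Bool) : Bool :=
  (unbits CtxT (unpair (unpair v).1).1).elim false (fun ctx =>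
    (unbits CertT (unpair v).2).elim false (fun ct =>
      ver M M1 c ctx.1 ctx.2.1 ctx.2.2 (unpair (unpair v).1).2 ct.1 ct.2.1 ct.2.2))

theorem poly_vraw {M M1 : Mach} (hV : Poly M.V) (hD : Poly M.D) (hV1 : Poly M1.V)
    (hD1 : Poly M1.D) (c : ℕ) : Poly (vraw M M1 c) := by
  unfold vraw
  have h0 : Poly (unbits CtxT) := poly_unbits
  have h0' : Poly (unbits CertT) := poly_unbits
  have h1 : Poly (fun v : List Bool => unbits CtxT (unpair (unpair v).1).1) :=
    h0.comp (by fun_prop)
  have h2 : Poly (fun p : List Bool × CtxT => unbits CertT (unpair p.1).2) :=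
    h0'.comp (by fun_prop)
  refine Poly.optElim h1 (by fun_prop) (Poly.optElim h2 (by fun_prop) ?_)
  exact poly_ver hV hD hV1 hD1 c (el := fun q : (List Bool × CtxT) × CertT => q.1.2.1)
    (a := fun q => q.1.2.2.1) (T := fun q => q.1.2.2.2) (x := fun q => (unpair (unpair q.1.1).1).2)
    (E1 := fun q => q.2.1) (E2 := fun q => q.2.2.1) (pad := fun q => q.2.2.2) (by fun_prop)
    (by fun_prop) (by fun_prop) (by fun_prop) (by fun_prop) (by fun_prop) (by fun_prop)

theorem vraw_some {M M1 : Mach} {c : ℕ} {ctx : CtxT} {x : List Bool} {ct : CertT} :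
    vraw M M1 c (pairBits (pairBits (bits ctx) x) (bits ct)) =
      ver M M1 c ctx.1 ctx.2.1 ctx.2.2 x ct.1 ct.2.1 ct.2.2 := by
  unfold vraw
  rw [unpair_pairBits]
  simp only
  rw [unpair_pairBits]
  simp only
  rw [unbits_bits, unbits_bits]
  rfl

theorem vraw_cert {M M1 : Mach} {c : ℕ} {ctx : CtxT} {x w : List Bool}
    (h : vraw M M1 c (pairBits (pairBits (bits ctx) x) w) = true) :
    ∃ ct : CertT, ver M M1 c ctx.1 ctx.2.1 ctx.2.2 x ct.1 ct.2.1 ct.2.2 = true := by
  unfold vraw at h
  rw [unpair_pairBits] at h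
  simp only at h
  rw [unpair_pairBits] at h
  simp only at h
  rw [unbits_bits] at h
  simp only [Option.elim_some] at h
  cases hct : unbits CertT w with
  | none => rw [hct] at h; simp at h
  | some ct =>
    rw [hct] at h
    exact ⟨ct, h⟩

theorem KE_sound {e : Code} {g : List Bool → Bool} {p : Polynomial ℕ}
    (he : IsCode e (fun v => [g v]) p) {c : ℕ} {s x r : List Bool}
    (h : pairBits (pairBits (bits (e, s)) r) x ∈ KE c) :
    ∃ w, g (pairBits (pairBits s x) w) = true := by
  obtain ⟨w, _, hw⟩ := h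
  unfold vke at hw
  rw [unpair_pairBits] at hw
  simp only at hw
  rw [unpair_pairBits] at hw
  simp only at hw
  rw [unbits_bits] at hw
  simp only [Option.elim_some, decide_eq_true_eq] at hw
  have h1 := he.eq hw
  rw [List.cons.injEq] at h1
  exact ⟨_, h1.1.symm⟩

theorem KE_complete {e : Code} {g : List Bool → Bool} {p : Polynomial ℕ}
    (he : IsCode e (fun v => [g v]) p) {c : ℕ} {s x r w : List Bool}
    (h : g (pairBits (pairBits s x) w) = true)
    (hm : 2 * w.length + 1 + p.eval (pairBits (pairBits s x) w).length ≤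
      2 ^ ((pairBits (pairBits (bits (e, s)) r) x).length ^ (c + 3) + (c + 3))) :
    pairBits (pairBits (bits (e, s)) r) x ∈ KE c := by
  refine ⟨pairBits w (List.replicate (p.eval (pairBits (pairBits s x) w).length) false), ?_, ?_⟩
  · rw [length_pairBits w, List.length_replicate]
    exact hm
  · unfold vke
    rw [unpair_pairBits]
    simp only
    rw [unpair_pairBits]
    simp only
    rw [unbits_bits]
    simp only [Option.elim_some, decide_eq_true_eq, unpair_pairBits, List.length_map,
      List.length_replicate]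
    rw [he _ _ le_rfl]
    simp only [h]

/-- The context. -/
def ctx0 (M1 : Mach) (c : ℕ) (a1 : ℕ → List Bool) (l : ℕ) : CtxT :=
  (List.replicate l (), a1 l, tau M1 c a1 l)

theorem sz_replicate_unit (n : ℕ) : sz (List.replicate n ()) ≤ 4 * n + 1 := by
  have h := sz_le_length_mul (List.replicate n ()) 1 (fun a _ => by simp)
  rw [List.length_replicate] at h
  omega

theorem size_tau_le (M : Mach) (c : ℕ) (a : ℕ → List Bool) (l : ℕ) :
    (tau M c a l).size ≤ l + (l ^ c + c) + 2 := by
  rw [Nat.size_le]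
  refine (tau_le M c a l).trans_lt ?_
  have h1 : 2 ^ (l ^ c + c) + 1 ≤ 2 ^ (l ^ c + c + 1) := by
    have : 1 ≤ 2 ^ (l ^ c + c) := Nat.one_le_two_pow
    rw [pow_succ]
    omega
  calc 2 ^ l * (2 ^ (l ^ c + c) + 1) ≤ 2 ^ l * 2 ^ (l ^ c + c + 1) := Nat.mul_le_mul_left _ h1
    _ = 2 ^ (l + (l ^ c + c) + 1) := by rw [← pow_add, ← Nat.add_assoc]
    _ < 2 ^ (l + (l ^ c + c) + 2) := Nat.pow_lt_pow_right (by norm_num) (by omega)

theorem sz_ctx0_le {M1 : Mach} {c l : ℕ} {a1 : ℕ → List Bool} (ha : (a1 l).length ≤ l ^ c + c) :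
    sz (ctx0 M1 c a1 l) ≤ 8 * l + 8 * (l ^ c + c) + 13 := by
  unfold ctx0
  have h1 := sz_replicate_unit l
  have h2 := sz_str_le ha
  have h3 := sz_nat_le (tau M1 c a1 l)
  have h4 := size_tau_le M1 c a1 l
  simp only [sz_pair]
  omega

/-- The main argument for one parameter. -/
theorem contra {M M1 : Mach} {c l : ℕ} {a a1 : ℕ → List Bool} (hM : M.Ok c (KE c) a)
    (hM1 : M1.Ok c (Bset M c) a1) {e : Code} {p : Polynomial ℕ}
    (he : IsCode e (fun v => [vraw M M1 c v]) p)
    (hcode : 2 * (bits (e, bits (ctx0 M1 c a1 l))).length + 1 ≤ nn c l)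
    (hT : cen M c l < 2 ^ (2 ^ l)) (hs : ss c l ≤ 2 ^ nn c l)
    (hB : ∀ w : List Bool, ∀ x : List Bool, x.length = nn c l →
      w.length ≤ bd1 M1 c a1 l + bd2 M c l + 4 * 2 ^ (RRP c).eval l + 3 →
      2 * w.length + 1 + p.eval (pairBits (pairBits (bits (ctx0 M1 c a1 l)) x) w).length ≤
        2 ^ (NN c l ^ (c + 3) + (c + 3))) : False := by
  set s := bits (ctx0 M1 c a1 l) with hs0
  set r : List Bool := List.replicate (nn c l - (2 * (bits (e, s)).length + 1)) false with hr
  set u := pairBits (bits (e, s)) r with hu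
  have hul : u.length = nn c l := by
    rw [hu, length_pairBits, hr, List.length_replicate]
    omega
  have hyl : ∀ x : List Bool, x.length = nn c l → (pairBits u x).length = NN c l := by
    intro x hx
    rw [length_pairBits, hul, hx]
    unfold NN
    ring
  have key : ∀ x : List Bool, x.length = nn c l →
      (pairBits u x ∈ KE c ↔ (x, true) ∈ (XL c l).zip (dgT M c l)) := by
    intro x hx
    constructor
    · intro h
      obtain ⟨w, hw⟩ := KE_sound he h
      obtain ⟨ct, hct⟩ := vraw_cert hw
      exact ver_sound hM hM1 hT hct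
    · intro h
      obtain ⟨E1, E2, h1, h2, h3, h4, h5⟩ := ver_complete hM hM1 hT h
      refine KE_complete he (w := bits ((E1, E2, List.replicate (2 ^ (RRP c).eval l) ()) : CertT))
        ?_ ?_
      · rw [hs0, vraw_some]
        exact h1
      · rw [← hu, hyl x hx]
        refine hB _ x hx ?_
        rw [bits_length]
        simp only [sz_pair]
        have h6 := sz_E1_le (hM1.adv l) h2 h3
        have h7 := sz_E2_le h4 h5
        have h8 := sz_replicate_unit (2 ^ (RRP c).eval l)
        omega
  -- the pair of `u` and the true advice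
  have hub : (u, a (NN c l)) ∈ UB c l := by
    rw [mem_UB]
    exact ⟨hul, hM.adv _⟩
  have hgood : goodT M c l (u, a (NN c l)) = true := by
    unfold goodT
    rw [List.all_eq_true]
    intro x hx
    rw [decide_eq_true_eq]
    have h1 := hM.cap (pairBits u x)
    rw [hyl x (mem_XL hx)] at h1
    exact h1
  have hmem : patT M c l (u, a (NN c l)) ∈ patsT M c l := by
    unfold patsT
    exact List.mem_map.2 ⟨_, List.mem_filter.2 ⟨hub, hgood⟩, rfl⟩
  have hXlen : (XL c l).length = ss c l := by
    unfold XL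
    rw [List.length_take, length_strs, min_eq_left hs]
  have hXnd : (XL c l).Nodup := (nodup_strs _).sublist (List.take_sublist _ _)
  obtain ⟨hd1, hd2⟩ := dgT_spec M c l
  apply hd2
  have heq : patT M c l (u, a (NN c l)) = dgT M c l := by
    apply List.ext_getElem
    · unfold patT
      rw [List.length_map, hXlen, hd1]
    · intro i h1 h2
      have h1' : i < (XL c l).length := by
        unfold patT at h1
        rwa [List.length_map] at h1
      have h3 : (patT M c l (u, a (NN c l)))[i] = M.D (pairBits u (XL c l)[i], a (NN c l),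
          (M.S (pairBits u (XL c l)[i]) (a (NN c l))).toList) := by
        simp only [patT, List.getElem_map]
      have h4 := hM.dec (pairBits u (XL c l)[i])
      have hxl : ((XL c l)[i]).length = nn c l := mem_XL (List.getElem_mem h1')
      rw [hyl _ hxl] at h4
      rw [h3, Bool.eq_iff_iff, ← h4, key _ hxl, List.mem_iff_getElem]
      constructor
      · rintro ⟨j, hj, h⟩
        rw [List.getElem_zip, Prod.mk.injEq] at h
        have := (List.Nodup.getElem_inj_iff hXnd).1 h.1
        subst this
        exact h.2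
      · intro h
        refine ⟨i, by rw [List.length_zip]; omega, ?_⟩
        rw [List.getElem_zip, h]
  rw [← heq]
  exact hmem

theorem exists_not_big (c : ℕ) : ∃ L, InNEXP L ∧ ¬ Big c L := by
  by_contra hcon
  push Not at hcon
  obtain ⟨M, a, hM⟩ := hcon (KE c) (inNEXP_KE c)
  obtain ⟨M1, a1, hM1⟩ := hcon (Bset M c) (inNEXP_Bset hM.hG c hM.pad)
  obtain ⟨e, p, he⟩ := U_complete (polyTime_of_poly (poly_vraw hM.hV hM.hD hM1.hV hM1.hD c))
  -- bounds
  set wb : ℕ → ℕ := fun l => bd1 M1 c a1 l + bd2 M c l + 4 * 2 ^ (RRP c).eval l + 3 with hwb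
  set sb : ℕ → ℕ := fun l => 8 * l + 8 * (l ^ c + c) + 13 with hsb
  set W : ℕ → ℕ := fun l => 2 * wb l + 1 + p.eval (2 * (2 * sb l + 1 + nn c l) + 1 + wb l) with hW
  have hRR : PB c (fun l => 2 ^ (RRP c).eval l) := by
    refine PB.mono (g := fun l => 2 ^ l * 2 ^ nn c l * 2 ^ KK c l * 2 ^ ss c l) ?_ ?_
    · exact (((pb_l2 c).mul (pb_nn2 c)).mul (pb_KK2 c)).mul (pb_ss2 c)
    · intro l _
      rw [RRP_eval, pow_add, pow_add, pow_add]
  have hwbP : PB c wb :=
    (((pb_bd1 M1 c a1).add (pb_bd2 M c)).add ((PB.const c 4).mul hRR)).add (PB.const c 3)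
  have hsbP : PB c sb :=
    (((PB.const c 8).mul (pb_l c)).add ((PB.const c 8).mul (pb_lc c))).add (PB.const c 13)
  have hWP : PB c W := by
    refine PB.add (PB.add ((PB.const c 2).mul hwbP) (PB.const c 1)) (PB.poly ?_ p)
    exact PB.add (PB.add ((PB.const c 2).mul (PB.add (PB.add ((PB.const c 2).mul hsbP)
      (PB.const c 1)) (pb_nn c))) (PB.const c 1)) hwbP
  obtain ⟨k, hk⟩ := hWP
  obtain ⟨k2, hk2⟩ := pb_cen M c
  obtain ⟨l1, hl1⟩ := poly_lt_two_pow (NNP c ^ (c + 1) * Polynomial.C k2)
  obtain ⟨l2, hl2⟩ := poly_lt_two_pow (ssP c)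
  set C := sz e with hC
  set l := 1000 + c + k + l1 + l2 + C with hl
  have hl0 : 1 ≤ l := by omega
  refine contra (l := l) hM hM1 he ?_ ?_ ?_ ?_
  · -- the code is short
    rw [bits_length, sz_pair]
    have h1 := sz_ctx0_le (M1 := M1) (hM1.adv l)
    rw [← bits_length] at h1
    have h2 := sz_str_le h1
    have h3 : nn c l = l ^ c * l * l * l := by
      unfold nn
      rw [pow_add]
      ring
    have h4 : 1 ≤ l ^ c := Nat.one_le_pow _ _ hl0
    have h5 : 1000 ≤ l := by omega
    have h6 : c ≤ l := by omega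
    have h7 : C ≤ l := by omega
    rw [h3]
    have h8 : l ^ c * l * 1000 ≤ l ^ c * l * l := Nat.mul_le_mul_left _ h5
    have h9 : l ^ c * l * l ≤ l ^ c * l * l * l := Nat.le_mul_of_pos_right _ (by omega)
    have h10 : l ≤ l ^ c * l := Nat.le_mul_of_pos_left _ (by omega)
    have h11 : l ^ c ≤ l ^ c * l := Nat.le_mul_of_pos_right _ (by omega)
    omega
  · -- the census is not too large
    refine (hk2 l hl0).trans_lt ?_
    unfold LL
    rw [← pow_mul]
    refine Nat.pow_lt_pow_right (by norm_num) ?_
    have := hl1 l (by omega)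
    rwa [Polynomial.eval_mul, Polynomial.eval_pow, NNP_eval, Polynomial.eval_C] at this
  · have := hl2 l (by omega)
    rw [ssP_eval] at this
    exact this.le.trans (Nat.pow_le_pow_right (by norm_num) (le_nn hl0))
  · intro w x hx hw
    have h1 : (pairBits (pairBits (bits (ctx0 M1 c a1 l)) x) w).length ≤
        2 * (2 * sb l + 1 + nn c l) + 1 + wb l := by
      rw [length_pairBits, length_pairBits, hx]
      have := sz_ctx0_le (M1 := M1) (hM1.adv l)
      rw [← bits_length] at this
      have h3 : w.length ≤ wb l := hw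
      have h4 : (bits (ctx0 M1 c a1 l)).length ≤ sb l := this
      omega
    have h2 := eval_mono p h1
    have h3 : w.length ≤ wb l := hw
    have h4 : 2 * w.length + 1 + p.eval (pairBits (pairBits (bits (ctx0 M1 c a1 l)) x) w).length ≤
        W l := by
      have : W l = 2 * wb l + 1 + p.eval (2 * (2 * sb l + 1 + nn c l) + 1 + wb l) := rfl
      omega
    refine h4.trans ((hk l hl0).trans ?_)
    unfold LL
    rw [← pow_mul]
    refine Nat.pow_le_pow_right (by norm_num) ?_
    have h5 : k ≤ NN c l := by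
      have := le_nn (c := c) hl0
      unfold NN
      omega
    have h6 : NN c l ≤ NN c l ^ 2 := by nlinarith [four_le_NN (c := c) hl0]
    calc NN c l ^ (c + 1) * k ≤ NN c l ^ (c + 1) * NN c l ^ 2 :=
          Nat.mul_le_mul_left _ (h5.trans h6)
      _ = NN c l ^ (c + 3) := by rw [← pow_add]
      _ ≤ _ := by omega

end Pool.Agent.H75C.NX
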