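import Pool.Agent.H75C.NX.Big

/-!
# The two languages: the bits of the census, and a universal set
-/

namespace Pool.Agent.H75C.NX

open Pool.Agent.NPC Pool.Agent.H660R2.NX

attribute [local irreducible] unpair
attribute [local fun_prop] poly_strsB poly_pow2 poly_take

/-- The exponent of the padding needed for the bits of the census. -/
noncomputable def RBP (M : Mach) (c : ℕ) : Polynomial ℕ :=
  Polynomial.X + nnP c + KKP c + M.p.comp (NNP c)

theorem RBP_eval (M : Mach) (c l : ℕ) :
    (RBP M c).eval l = l + nn c l + KK c l + M.p.eval (NN c l) := by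
  simp [RBP, nnP_eval, KKP_eval, NNP_eval, Polynomial.eval_comp]

/-- The verifier for the bits of the census: the certificate is the padding. -/
noncomputable def VB (M : Mach) (c : ℕ) (v : List Bool) : Bool :=
  decide (2 ^ (RBP M c).eval (unpair v).1.length ≤ ((unpair v).2.map (fun _ => ())).length) &&
  decide (((unpair v).1, true) ∈ (strsB (unpair v).1.length ((unpair v).2.map (fun _ => ()))).zip
    (cenD M c (unpair v).1.length ((unpair v).2.map (fun _ => ()))).bits)

theorem poly_VB {M : Mach} (hG : Poly M.G) (c : ℕ) : Poly (VB M c) := by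
  have h0 : Poly (fun v : List Bool => (unpair v).1) := by fun_prop
  have h1 : UPoly (fun v : List Bool => (unpair v).1.length) := UPoly.length h0
  have h2 : Poly (fun v : List Bool => (unpair v).2.map (fun _ => ())) := by fun_prop
  have h3 : Poly (fun v : List Bool => 2 ^ (RBP M c).eval (unpair v).1.length) :=
    poly_pow2 (UPoly.eval h1 _)
  have h4 := poly_strsB h1 h2
  have h5 := NPC.Poly.natBits (poly_cenD hG h1 h2 c)
  unfold VB
  refine NPC.Poly.and (NPC.Poly.decide_le h3 (NPC.Poly.length h2)) ?_
  exact NPC.Poly.dec_mem (NPC.Poly.pair h0 (NPC.Poly.const true)) (NPC.Poly.zip h4 h5)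

theorem inNEXP_Bset {M : Mach} (hG : Poly M.G) (c : ℕ)
    (hpad : ∀ x b q (pad : List Unit), b.length ≤ x.length ^ c + c →
      2 ^ M.p.eval x.length ≤ pad.length →
      M.G (x, b, q, pad) = M.G (x, b, q, List.replicate (2 ^ M.p.eval x.length) ())) :
    InNEXP (Bset M c) := by
  refine ⟨fun v => [VB M c v], RBP M c, polyTime_of_poly (poly_VB hG c), fun z => ?_⟩
  have key : ∀ pad : List Unit, 2 ^ (RBP M c).eval z.length ≤ pad.length →
      (strsB z.length pad).zip (cenD M c z.length pad).bits =
        (strs z.length).zip (cen M c z.length).bits := by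
    intro pad hp
    rw [RBP_eval] at hp
    have hm : ∀ {k : ℕ}, k ≤ z.length + nn c z.length + KK c z.length + M.p.eval (NN c z.length) →
        2 ^ k ≤ pad.length := fun hk => (Nat.pow_le_pow_right (by norm_num) hk).trans hp
    rw [strsB_eq (hm (by omega)), cenD_eq hpad (hm (by omega)) (hm (by omega)) (hm (by omega))]
  constructor
  · intro hz
    refine ⟨List.replicate (2 ^ (RBP M c).eval z.length) false, by simp, ?_⟩
    rw [List.cons.injEq]
    refine ⟨?_, rfl⟩
    unfold VB
    rw [unpair_pairBits]
    simp only [List.map_replicate, List.length_replicate, le_refl, decide_true, Bool.true_and]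
    rw [decide_eq_true_eq, key _ (by simp)]
    exact hz
  · rintro ⟨w, _, hw⟩
    rw [List.cons.injEq] at hw
    have hw := hw.1
    unfold VB at hw
    rw [unpair_pairBits, Bool.and_eq_true, decide_eq_true_eq, decide_eq_true_eq] at hw
    rw [key _ hw.1] at hw
    exact hw.2

/-! ### The universal set -/

/-- The test made by the universal verifier: the instance `y` is the pair of `u` and `x`, the first
component of `u` codes a program and a string `s`; the certificate is the pair of `w` and a string
that bounds the running time; the program is run on the pair of the pair of `s` and `x`, and `w`. -/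
def vke (y w : List Bool) : Bool :=
  (unbits (Code × List Bool) (unpair (unpair y).1).1).elim false (fun i =>
    decide (U i.1 (pairBits (pairBits i.2 (unpair y).2) (unpair w).1)
      ((unpair w).2.map (fun _ => ())).length = some [true]))

/-- The universal set for `2 ^ (n ^ (c + 3) + (c + 3))`. -/
def KE (c : ℕ) : Set (List Bool) :=
  {y | ∃ w : List Bool, w.length ≤ 2 ^ (y.length ^ (c + 3) + (c + 3)) ∧ vke y w = true}

theorem poly_vke : Poly (fun v : List Bool => vke (unpair v).1 (unpair v).2) := by
  unfold vke
  have h0 : Poly (unbits (Code × List Bool)) := poly_unbits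
  have h1 : Poly (fun v : List Bool => unbits (Code × List Bool) (unpair (unpair (unpair v).1).1).1) :=
    h0.comp (by fun_prop)
  refine Poly.optElim h1 (by fun_prop) ?_
  refine Poly.dec_eq (f := fun p : List Bool × (Code × List Bool) =>
    U p.2.1 (pairBits (pairBits p.2.2 (unpair (unpair p.1).1).2) (unpair (unpair p.1).2).1)
      ((unpair (unpair p.1).2).2.map (fun _ => ())).length) (g := fun _ => some [true]) ?_
      (by fun_prop)
  exact poly_U.comp (f := fun p : List Bool × (Code × List Bool) =>
    (p.2.1, pairBits (pairBits p.2.2 (unpair (unpair p.1).1).2) (unpair (unpair p.1).2).1,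
      (unpair (unpair p.1).2).2.map (fun _ => ())))
    (by fun_prop)

theorem inNEXP_KE (c : ℕ) : InNEXP (KE c) := by
  refine ⟨fun v => [vke (unpair v).1 (unpair v).2], Polynomial.X ^ (c + 3) + Polynomial.C (c + 3),
    polyTime_of_poly poly_vke, fun y => ?_⟩
  simp only [Polynomial.eval_add, Polynomial.eval_pow, Polynomial.eval_X, Polynomial.eval_C,
    unpair_pairBits, KE, Set.mem_ofPred_eq, List.cons.injEq, and_true]

/-! ### The diagonal string -/

/-- The values of the pair `ub`. -/
def pat (D : List Bool × List Bool × List (List Bool) → Bool) (Xs : List (List Bool))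
    (E : List Ent) (ub : List Bool × List Bool) : List Bool :=
  Xs.map (fun x => D (pairBits ub.1 x, ub.2, facts E (pairBits ub.1 x, ub.2)))

/-- The pair `ub` has few facts. -/
def good (Xs : List (List Bool)) (cap : ℕ) (E : List Ent) (ub : List Bool × List Bool) : Bool :=
  Xs.all (fun x => decide ((facts E (pairBits ub.1 x, ub.2)).length ≤ cap))

/-- The strings of values of the pairs with few facts. -/
def pats (D : List Bool × List Bool × List (List Bool) → Bool) (Xs : List (List Bool)) (cap : ℕ)
    (UBl : List (List Bool × List Bool)) (E : List Ent) : List (List Bool) :=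
  (UBl.filter (good Xs cap E)).map (pat D Xs E)

/-- The first element of `Vs` that is not in `Ps`. -/
def dg (Vs Ps : List (List Bool)) : List Bool :=
  ((Vs.filter (fun v => decide (v ∉ Ps))).head?).getD []

/-- The second part of the verifier. -/
def core2 (V : Ent → Bool) (D : List Bool × List Bool × List (List Bool) → Bool) (cap : ℕ)
    (Xs Vs : List (List Bool)) (UBl : List (List Bool × List Bool)) (T : ℕ) (x : List Bool)
    (E : List Ent) : Bool :=
  chk V (ZZ UBl Xs) cap T E && decide ((x, true) ∈ Xs.zip (dg Vs (pats D Xs cap UBl E)))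

/-- The first part of the verifier. -/
def core1 (V : Ent → Bool) (cap : ℕ) (Zs : List (List Bool)) (a : List Bool) (T : ℕ)
    (E : List Ent) : Bool := chk V (Zs.map (fun z => (z, a))) cap T E

/-- The number whose bits are decided. -/
def num (D : List Bool × List Bool × List (List Bool) → Bool) (Zs : List (List Bool))
    (a : List Bool) (E : List Ent) : ℕ := valB (Zs.map (fun z => D (z, a, facts E (z, a))))

variable {α : Type} [TEnc α]

@[fun_prop]
theorem poly_dg {Vs Ps : α → List (List Bool)} (hV : Poly Vs) (hP : Poly Ps) :
    Poly (fun a => dg (Vs a) (Ps a)) := by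
  unfold dg
  fun_prop

theorem poly_core1 {V : Ent → Bool} (hV : Poly V) {cap T : α → ℕ} {Zs : α → List (List Bool)}
    {b : α → List Bool} {E : α → List Ent} (hcap : Poly cap) (hT : Poly T) (hZ : Poly Zs)
    (hb : Poly b) (hE : Poly E) : Poly (fun a => core1 V (cap a) (Zs a) (b a) (T a) (E a)) := by
  unfold core1
  exact poly_chk hV (Z := fun a => (Zs a).map (fun z => (z, b a))) (by fun_prop) hcap hT hE

theorem poly_num {D : List Bool × List Bool × List (List Bool) → Bool} (hD : Poly D)
    {Zs : α → List (List Bool)} {b : α → List Bool} {E : α → List Ent} (hZ : Poly Zs)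
    (hb : Poly b) (hE : Poly E) : Poly (fun a => num D (Zs a) (b a) (E a)) := by
  unfold num
  refine NPC.Poly.valBits (NPC.Poly.map hZ ?_)
  exact hD.comp (f := fun p : α × List Bool => (p.2, b p.1, facts (E p.1) (p.2, b p.1)))
    (by fun_prop)

theorem poly_core2 {V : Ent → Bool} (hV : Poly V)
    {D : List Bool × List Bool × List (List Bool) → Bool} (hD : Poly D) {cap T : α → ℕ}
    {Xs Vs : α → List (List Bool)} {UBl : α → List (List Bool × List Bool)}
    {x : α → List Bool} {E : α → List Ent} (hcap : Poly cap) (hT : Poly T) (hX : Poly Xs)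
    (hVs : Poly Vs) (hU : Poly UBl) (hx : Poly x) (hE : Poly E) :
    Poly (fun a => core2 V D (cap a) (Xs a) (Vs a) (UBl a) (T a) (x a) (E a)) := by
  have h1 : Poly (fun p : (α × (List Bool × List Bool)) × List Bool =>
      D (pairBits p.1.2.1 p.2, p.1.2.2, facts (E p.1.1) (pairBits p.1.2.1 p.2, p.1.2.2))) :=
    hD.comp (f := fun p : (α × (List Bool × List Bool)) × List Bool =>
      (pairBits p.1.2.1 p.2, p.1.2.2, facts (E p.1.1) (pairBits p.1.2.1 p.2, p.1.2.2)))
      (by fun_prop)
  have h2 : Poly (fun p : α × (List Bool × List Bool) => pat D (Xs p.1) (E p.1) p.2) := by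
    unfold pat
    exact NPC.Poly.map (hX.comp (NPC.Poly.fst NPC.Poly.id)) h1
  have h3 : Poly (fun p : α × (List Bool × List Bool) => good (Xs p.1) (cap p.1) (E p.1) p.2) := by
    unfold good
    fun_prop
  have h4 : Poly (fun a => pats D (Xs a) (cap a) (UBl a) (E a)) := by
    unfold pats
    exact NPC.Poly.map (NPC.Poly.filter hU h3) h2
  have h5 : Poly (fun a => dg (Vs a) (pats D (Xs a) (cap a) (UBl a) (E a))) := poly_dg hVs h4
  unfold core2
  refine NPC.Poly.and ?_ ?_
  · exact poly_chk hV (Z := fun a => ZZ (UBl a) (Xs a)) (by fun_prop) hcap hT hE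
  · fun_prop

end Pool.Agent.H75C.NX
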