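import Pool.Agent.H75C.NX.Lang

/-!
# Soundness and completeness of the verifier
-/

namespace Pool.Agent.H75C.NX

open Pool.Agent.NPC Pool.Agent.H660R2.NX

attribute [local irreducible] unpair

/-- The strings of values, computed with all facts. -/
noncomputable def patT (M : Mach) (c l : ℕ) (ub : List Bool × List Bool) : List Bool :=
  (XL c l).map (fun x => M.D (pairBits ub.1 x, ub.2, (M.S (pairBits ub.1 x) ub.2).toList))

/-- The pair has few facts. -/
def goodT (M : Mach) (c l : ℕ) (ub : List Bool × List Bool) : Bool :=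
  (XL c l).all (fun x => decide ((M.S (pairBits ub.1 x) ub.2).card ≤ 2 ^ KK c l))

/-- The strings of values of the pairs with few facts. -/
noncomputable def patsT (M : Mach) (c l : ℕ) : List (List Bool) :=
  ((UB c l).filter (goodT M c l)).map (patT M c l)

/-- The diagonal string. -/
noncomputable def dgT (M : Mach) (c l : ℕ) : List Bool := dg (strs (ss c l)) (patsT M c l)

theorem length_patsT (M : Mach) (c l : ℕ) : (patsT M c l).length < 2 ^ ss c l := by
  unfold patsT
  rw [List.length_map]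
  refine (List.length_filter_le _ _).trans_lt ((length_UB c l).trans_le ?_)
  exact Nat.pow_le_pow_right (by norm_num) (by unfold ss; omega)

theorem dgT_spec (M : Mach) (c l : ℕ) : (dgT M c l).length = ss c l ∧ dgT M c l ∉ patsT M c l := by
  unfold dgT dg
  have hne : (strs (ss c l)).filter (fun v => decide (v ∉ patsT M c l)) ≠ [] := by
    intro h
    rw [List.filter_eq_nil_iff] at h
    have h1 : (strs (ss c l)).toFinset ⊆ (patsT M c l).toFinset := by
      intro v hv
      rw [List.mem_toFinset] at hv ⊢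
      have := h v hv
      simpa using this
    have h2 := Finset.card_le_card h1
    rw [List.toFinset_card_of_nodup (nodup_strs _), length_strs] at h2
    have h3 := List.toFinset_card_le (patsT M c l)
    have h4 := length_patsT M c l
    omega
  generalize hF : (strs (ss c l)).filter (fun v => decide (v ∉ patsT M c l)) = F at hne
  cases F with
  | nil => exact absurd rfl hne
  | cons v F =>
    have hv : v ∈ (strs (ss c l)).filter (fun v => decide (v ∉ patsT M c l)) := by
      rw [hF]; exact List.mem_cons_self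
    rw [List.mem_filter, decide_eq_true_eq, mem_strs] at hv
    simpa using hv

theorem pats_eq {M : Mach} {c l : ℕ}
    (inv : ∀ x b l l', (∀ q, q ∈ l ↔ q ∈ l') → M.D (x, b, l) = M.D (x, b, l')) {E : List Ent}
    (h : ∀ z ∈ ZL c l, (facts E z).length = min (M.S z.1 z.2).card (2 ^ KK c l + 1) ∧
      ((M.S z.1 z.2).card ≤ 2 ^ KK c l → ∀ q, q ∈ facts E z ↔ q ∈ M.S z.1 z.2)) :
    pats M.D (XL c l) (2 ^ KK c l) (UB c l) E = patsT M c l := by
  unfold pats patsT
  have hg : ∀ ub ∈ UB c l, good (XL c l) (2 ^ KK c l) E ub = goodT M c l ub := by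
    intro ub hub
    unfold good goodT
    rw [Bool.eq_iff_iff, List.all_eq_true, List.all_eq_true]
    have key : ∀ x ∈ XL c l, ((facts E (pairBits ub.1 x, ub.2)).length ≤ 2 ^ KK c l ↔
        (M.S (pairBits ub.1 x) ub.2).card ≤ 2 ^ KK c l) := by
      intro x hx
      have := (h _ (mem_ZL.2 ⟨ub, hub, x, hx, rfl⟩)).1
      simp only at this
      rw [this]
      omega
    simp only [decide_eq_true_eq]
    constructor
    · intro h1 x hx; exact (key x hx).1 (h1 x hx)
    · intro h1 x hx; exact (key x hx).2 (h1 x hx)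
  rw [List.filter_congr hg]
  refine List.map_congr_left fun ub hub => ?_
  rw [List.mem_filter] at hub
  unfold pat patT
  refine List.map_congr_left fun x hx => ?_
  apply inv
  intro q
  rw [Finset.mem_toList]
  have h1 := hub.2
  unfold goodT at h1
  rw [List.all_eq_true] at h1
  have h2 := h1 x hx
  rw [decide_eq_true_eq] at h2
  exact (h _ (mem_ZL.2 ⟨ub, hub.1, x, hx, rfl⟩)).2 h2 q

theorem core2_sound {M : Mach} {c l : ℕ} {L : Set (List Bool)} {a : ℕ → List Bool}
    (hM : M.Ok c L a) {x : List Bool} {E : List Ent}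
    (h : core2 M.V M.D (2 ^ KK c l) (XL c l) (strs (ss c l)) (UB c l) (cen M c l) x E = true) :
    (x, true) ∈ (XL c l).zip (dgT M c l) := by
  unfold core2 at h
  rw [Bool.and_eq_true, decide_eq_true_eq] at h
  have h1 := chk_sound (S := M.S) (nodup_ZL c l) (fun e he hz =>
    hM.sound e.1 e.2.1 e.2.2.1 e.2.2.2 (length_of_mem_ZL hz).2 he) rfl h.1
  rw [pats_eq hM.inv h1] at h
  exact h.2

theorem core2_complete {M : Mach} {c l : ℕ} {L : Set (List Bool)} {a : ℕ → List Bool}
    (hM : M.Ok c L a) {x : List Bool} (hx : (x, true) ∈ (XL c l).zip (dgT M c l)) :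
    ∃ E : List Ent, core2 M.V M.D (2 ^ KK c l) (XL c l) (strs (ss c l)) (UB c l) (cen M c l) x E =
      true ∧ (∀ e ∈ E, (e.1, e.2.1) ∈ ZL c l ∧ e.2.2.1 ∈ M.S e.1 e.2.1 ∧
        e.2.2.2.length ≤ M.P.eval (2 ^ KK c l + NN c l)) ∧ E.length = cen M c l := by
  obtain ⟨E, h1, h2, h3⟩ := chk_complete (V := M.V) (Z := ZL c l) (cap := 2 ^ KK c l)
    (T := cen M c l) (S := M.S) (nodup_ZL c l) (M.P.eval (2 ^ KK c l + NN c l)) (by
      intro z hz q hq
      obtain ⟨h4, h5⟩ := length_of_mem_ZL hz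
      obtain ⟨w, hw, hw'⟩ := hM.compl z.1 z.2 q h5 hq
      refine ⟨w, hw.trans ?_, hw'⟩
      rw [h4]
      rfl) rfl
  refine ⟨E, ?_, h2, h3⟩
  unfold core2
  rw [Bool.and_eq_true, decide_eq_true_eq]
  refine ⟨h1, ?_⟩
  have h4 := chk_sound (S := M.S) (nodup_ZL c l) (fun e he hz =>
    hM.sound e.1 e.2.1 e.2.2.1 e.2.2.2 (length_of_mem_ZL hz).2 he) rfl h1
  rw [pats_eq hM.inv h4]
  exact hx

/-! ### The first part -/

/-- The instances of the first part. -/
def Z1 (a : List Bool) (l : ℕ) : List (List Bool × List Bool) := (strs l).map (fun z => (z, a))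

theorem nodup_Z1 (a : List Bool) (l : ℕ) : (Z1 a l).Nodup :=
  (nodup_strs l).map (fun x y h => by simpa using h)

theorem mem_Z1 {a : List Bool} {l : ℕ} {z : List Bool × List Bool} :
    z ∈ Z1 a l ↔ z.1.length = l ∧ z.2 = a := by
  unfold Z1
  rw [List.mem_map]
  constructor
  · rintro ⟨y, hy, rfl⟩
    exact ⟨mem_strs.1 hy, rfl⟩
  · rintro ⟨h1, rfl⟩
    exact ⟨z.1, mem_strs.2 h1, rfl⟩

/-- The census of the first part. -/
def tau (M : Mach) (c : ℕ) (a : ℕ → List Bool) (l : ℕ) : ℕ :=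
  census M.S (2 ^ (l ^ c + c)) (Z1 (a l) l)

theorem core1_sound {M M1 : Mach} {c l : ℕ} {a : ℕ → List Bool}
    (hM : M1.Ok c (Bset M c) a) (hT : cen M c l < 2 ^ (2 ^ l)) {E : List Ent}
    (h : core1 M1.V (2 ^ (l ^ c + c)) (strs l) (a l) (tau M1 c a l) E = true) :
    num M1.D (strs l) (a l) E = cen M c l := by
  have h1 := chk_sound (S := M1.S) (nodup_Z1 (a l) l) (V := M1.V) (cap := 2 ^ (l ^ c + c))
    (T := tau M1 c a l) (E := E) (fun e he hz => by
      rw [mem_Z1] at hz
      simp only at hz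
      refine hM.sound e.1 e.2.1 e.2.2.1 e.2.2.2 ?_ he
      rw [hz.2, hz.1]
      exact hM.adv l) rfl h
  unfold num
  rw [← length_strs l] at hT
  have h2 : (strs l).map (fun z => M1.D (z, a l, facts E (z, a l))) =
      (strs l).map (fun z => decide ((z, true) ∈ (strs l).zip (cen M c l).bits)) := by
    refine List.map_congr_left fun z hz => ?_
    have hz' := mem_strs.1 hz
    have h3 := (h1 (z, a l) (mem_Z1.2 ⟨hz', rfl⟩)).2 (by
      have := hM.cap z
      rw [hz'] at this
      exact this)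
    have h4 : M1.D (z, a l, facts E (z, a l)) = M1.D (z, a l, (M1.S z (a l)).toList) := by
      apply hM.inv
      intro q
      rw [Finset.mem_toList]
      exact h3 q
    have h5 := hM.dec z
    rw [hz'] at h5
    rw [h4, Bool.eq_iff_iff, ← h5, decide_eq_true_eq]
    unfold Bset
    rw [Set.mem_ofPred_eq, hz']
  rw [h2]
  exact valB_zip (nodup_strs l) hT

theorem core1_complete {M1 : Mach} {c l : ℕ} {a : ℕ → List Bool} {L : Set (List Bool)}
    (hM : M1.Ok c L a) :
    ∃ E : List Ent, core1 M1.V (2 ^ (l ^ c + c)) (strs l) (a l) (tau M1 c a l) E = true ∧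
      (∀ e ∈ E, (e.1, e.2.1) ∈ Z1 (a l) l ∧ e.2.2.1 ∈ M1.S e.1 e.2.1 ∧
        e.2.2.2.length ≤ M1.P.eval (2 ^ (l ^ c + c) + l)) ∧ E.length = tau M1 c a l := by
  refine chk_complete (V := M1.V) (Z := Z1 (a l) l) (cap := 2 ^ (l ^ c + c))
    (T := tau M1 c a l) (S := M1.S) (nodup_Z1 (a l) l) (M1.P.eval (2 ^ (l ^ c + c) + l)) ?_ rfl
  intro z hz q hq
  rw [mem_Z1] at hz
  obtain ⟨w, hw, hw'⟩ := hM.compl z.1 z.2 q (by rw [hz.2, hz.1]; exact hM.adv l) hq
  rw [hz.1] at hw
  exact ⟨w, hw, hw'⟩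

/-! ### The verifier -/

/-- The exponent of the padding. -/
noncomputable def RRP (c : ℕ) : Polynomial ℕ := Polynomial.X + nnP c + KKP c + ssP c

theorem RRP_eval (c l : ℕ) : (RRP c).eval l = l + nn c l + KK c l + ss c l := by
  simp [RRP, nnP_eval, KKP_eval, ssP_eval]

/-- The verifier. -/
noncomputable def ver (M M1 : Mach) (c : ℕ) (el : List Unit) (a : List Bool) (T : ℕ) (x : List Bool)
    (E1 E2 : List Ent) (pad : List Unit) : Bool :=
  decide (2 ^ (RRP c).eval el.length ≤ pad.length) &&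
  (core1 M1.V (2 ^ (el.length ^ c + c)) (strsB el.length pad) a T E1 &&
   core2 M.V M.D (2 ^ KK c el.length) (XP c el.length pad) (strsB (ss c el.length) pad)
    (UP c el.length pad) (num M1.D (strsB el.length pad) a E1) x E2)

theorem ver_eq {M M1 : Mach} {c : ℕ} {el : List Unit} {a : List Bool} {T : ℕ} {x : List Bool}
    {E1 E2 : List Ent} {pad : List Unit} (h : 2 ^ (RRP c).eval el.length ≤ pad.length) :
    ver M M1 c el a T x E1 E2 pad =
      (core1 M1.V (2 ^ (el.length ^ c + c)) (strs el.length) a T E1 &&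
        core2 M.V M.D (2 ^ KK c el.length) (XL c el.length) (strs (ss c el.length))
          (UB c el.length) (num M1.D (strs el.length) a E1) x E2) := by
  unfold ver
  have hp := h
  rw [RRP_eval] at hp
  have hm : ∀ {k : ℕ}, k ≤ el.length + nn c el.length + KK c el.length + ss c el.length →
      2 ^ k ≤ pad.length := fun hk => (Nat.pow_le_pow_right (by norm_num) hk).trans hp
  rw [decide_eq_true h, Bool.true_and, strsB_eq (hm (by omega)), strsB_eq (hm (by omega)),
    XP_eq (hm (by omega)), UP_eq (hm (by omega)) (hm (by omega))]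

theorem poly_ver {α : Type} [TEnc α] {M M1 : Mach} (hV : Poly M.V) (hD : Poly M.D)
    (hV1 : Poly M1.V) (hD1 : Poly M1.D) (c : ℕ) {el : α → List Unit} {a : α → List Bool}
    {T : α → ℕ} {x : α → List Bool} {E1 E2 : α → List Ent} {pad : α → List Unit} (hel : Poly el)
    (ha : Poly a) (hT : Poly T) (hx : Poly x) (hE1 : Poly E1) (hE2 : Poly E2) (hpad : Poly pad) :
    Poly (fun b => ver M M1 c (el b) (a b) (T b) (x b) (E1 b) (E2 b) (pad b)) := by
  have hl : UPoly (fun b => (el b).length) := UPoly.length hel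
  have h1 : Poly (fun b => 2 ^ (RRP c).eval (el b).length) := poly_pow2 (UPoly.eval hl _)
  have h2 : Poly (fun b => 2 ^ ((el b).length ^ c + c)) :=
    poly_pow2 (upoly_of_eval (f := fun n => n ^ c + c) hl (Polynomial.X ^ c + Polynomial.C c)
      (fun n => by simp))
  have h3 : Poly (fun b => 2 ^ KK c (el b).length) := poly_pow2 (upoly_KK hl c)
  have h4 : Poly (fun b => strsB (el b).length (pad b)) := poly_strsB hl hpad
  have h5 : Poly (fun b => strsB (ss c (el b).length) (pad b)) := poly_strsB (upoly_ss hl c) hpad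
  have h6 := poly_XP hl hpad c
  have h7 := poly_UP hl hpad c
  have h8 := poly_num hD1 h4 ha hE1
  unfold ver
  refine NPC.Poly.and (NPC.Poly.decide_le h1 (NPC.Poly.length hpad)) (NPC.Poly.and ?_ ?_)
  · exact poly_core1 hV1 h2 hT h4 ha hE1
  · exact poly_core2 hV hD h3 h8 h6 h5 h7 hx hE2

theorem ver_sound {M M1 : Mach} {c l : ℕ} {L : Set (List Bool)} {a a1 : ℕ → List Bool}
    (hM : M.Ok c L a) (hM1 : M1.Ok c (Bset M c) a1) (hT : cen M c l < 2 ^ (2 ^ l))
    {x : List Bool} {E1 E2 : List Ent} {pad : List Unit}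
    (h : ver M M1 c (List.replicate l ()) (a1 l) (tau M1 c a1 l) x E1 E2 pad = true) :
    (x, true) ∈ (XL c l).zip (dgT M c l) := by
  have hp : 2 ^ (RRP c).eval (List.replicate l ()).length ≤ pad.length := by
    unfold ver at h
    rw [Bool.and_eq_true, decide_eq_true_eq] at h
    exact h.1
  rw [ver_eq hp, List.length_replicate, Bool.and_eq_true] at h
  have h1 := core1_sound hM1 hT h.1
  rw [h1] at h
  exact core2_sound hM h.2

theorem ver_complete {M M1 : Mach} {c l : ℕ} {L : Set (List Bool)} {a a1 : ℕ → List Bool}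
    (hM : M.Ok c L a) (hM1 : M1.Ok c (Bset M c) a1) (hT : cen M c l < 2 ^ (2 ^ l))
    {x : List Bool} (hx : (x, true) ∈ (XL c l).zip (dgT M c l)) :
    ∃ E1 E2 : List Ent, ver M M1 c (List.replicate l ()) (a1 l) (tau M1 c a1 l) x E1 E2
        (List.replicate (2 ^ (RRP c).eval l) ()) = true ∧
      (∀ e ∈ E1, (e.1, e.2.1) ∈ Z1 (a1 l) l ∧ e.2.2.1 ∈ M1.S e.1 e.2.1 ∧
        e.2.2.2.length ≤ M1.P.eval (2 ^ (l ^ c + c) + l)) ∧ E1.length = tau M1 c a1 l ∧
      (∀ e ∈ E2, (e.1, e.2.1) ∈ ZL c l ∧ e.2.2.1 ∈ M.S e.1 e.2.1 ∧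
        e.2.2.2.length ≤ M.P.eval (2 ^ KK c l + NN c l)) ∧ E2.length = cen M c l := by
  obtain ⟨E1, h1, h2, h3⟩ := core1_complete hM1 (l := l)
  obtain ⟨E2, h4, h5, h6⟩ := core2_complete hM hx
  refine ⟨E1, E2, ?_, h2, h3, h5, h6⟩
  rw [ver_eq (by simp), List.length_replicate, Bool.and_eq_true]
  refine ⟨h1, ?_⟩
  rw [core1_sound hM1 hT h1]
  exact h4

end Pool.Agent.H75C.NX
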